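import Pool.Agent.Q19.VOQ.Hei

/-!
The conformal vector of the Heisenberg vertex algebra and the vertex operator algebra.
-/

set_option autoImplicit false

namespace Pool.Agent.Q19.VOQ

open MvPolynomial

theorem bc_zero_right (r : ℤ) : bc r 0 = 1 := by
  simp [bc]

theorem bc_one_right (r : ℤ) : bc r 1 = r := by
  simp [bc]

theorem bc_zero_left (i : ℕ) (hi : i ≠ 0) : bc 0 i = 0 := by
  unfold bc
  obtain ⟨j, rfl⟩ := Nat.exists_eq_succ_of_ne_zero hi
  simp

theorem bc_three (r : ℤ) : bc r 3 = (r : ℚ) * (r - 1) * (r - 2) / 6 := by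
  unfold bc
  have h := Ring.descPochhammer_eq_factorial_smul_choose r 3
  have h2 : (descPochhammer ℤ 3).smeval r = r * (r - 1) * (r - 2) := by
    rw [← Polynomial.eval_eq_smeval, descPochhammer_succ_eval, descPochhammer_succ_eval,
      descPochhammer_succ_eval, descPochhammer_zero]
    simp
  rw [h2] at h
  have h3 : r * (r - 1) * (r - 2) = 6 * Ring.choose r 3 := by
    rw [h]
    simp [Nat.factorial]
  have h4 : (r : ℚ) * (r - 1) * (r - 2) = 6 * ((Ring.choose r 3 : ℤ) : ℚ) := by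
    exact_mod_cast h3
  rw [h4]
  ring

section gen

variable {V : Type} [AddCommGroup V] [Module ℚ V] (A : VertexAlgebra V)

/-- the commutator formula -/
theorem comm_formula (a b v : V) (m n : ℤ) :
    A.Y a m (A.Y b n v) - A.Y b n (A.Y a m v) =
      ∑ᶠ i : ℕ, bc m i • A.Y (A.Y a i b) (m + n - i) v := by
  have hB := A.borcherds a b v m n 0
  have hR : ∑ᶠ i : ℕ, ((-1 : ℚ) ^ i * bc 0 i) •
      (A.Y a (m + 0 - i) (A.Y b (n + i) v) -
        (-1 : ℚ) ^ (0 : ℤ) • A.Y b (n + 0 - i) (A.Y a (m + i) v)) =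
      A.Y a m (A.Y b n v) - A.Y b n (A.Y a m v) := by
    rw [finsum_eq_single _ 0]
    · simp [bc_zero_right]
    · intro i hi
      rw [bc_zero_left i hi, mul_zero, zero_smul]
  rw [hR] at hB
  rw [← hB]
  simp only [zero_add]

/-- the iterate formula -/
theorem iter_formula (a b v : V) (m n : ℤ) :
    A.Y (A.Y a n b) m v = ∑ᶠ i : ℕ, ((-1 : ℚ) ^ i * bc n i) •
      (A.Y a (n - i) (A.Y b (m + i) v) - (-1 : ℚ) ^ n • A.Y b (m + n - i) (A.Y a i v)) := by
  have hB := A.borcherds a b v 0 m n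
  have hL : ∑ᶠ i : ℕ, bc 0 i • A.Y (A.Y a (n + i) b) (0 + m - i) v =
      A.Y (A.Y a n b) m v := by
    rw [finsum_eq_single _ 0]
    · simp [bc_zero_right]
    · intro i hi
      rw [bc_zero_left i hi, zero_smul]
  rw [hL] at hB
  rw [hB]
  simp only [zero_add]

end gen

/-- the conformal vector `3 h_(-1)^2 1` -/
noncomputable def om : PP := C 3 * X 0 ^ 2

theorem C_smul (a : ℚ) (p : PP) : C a * p = a • p := (MvPolynomial.smul_eq_C_mul p a).symm

theorem om_eq : om = (3 : ℚ) • hOp (-1) (hOp (-1) 1) := by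
  have h : ∀ p : PP, hOp (-1) p = X 0 * p := by
    intro p
    have := hOp_neg 0 p
    simpa using this
  rw [h, h, om, C_smul]
  ring_nf

theorem h_om (i : ℕ) : hOp i om = if i = 1 then X 0 else 0 := by
  rcases i with _ | l
  · simp [hOp_zero]
  · have e : ((l + 1 : ℕ) : ℤ) = (l : ℤ) + 1 := by push_cast; ring
    rw [e, hOp_pos, om, pderiv_C_mul, pderiv_pow, pderiv_X]
    by_cases hl : l = 0
    · subst hl
      rw [Pi.single_eq_same, if_pos rfl]
      have : (C 3 : PP) * (((2 : ℕ) : PP) * X 0 ^ (2 - 1) * 1) = (6 : ℚ) • (X 0 : PP) := by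
        have h2 : ((2 : ℕ) : PP) = C 2 := (map_natCast C 2).symm
        rw [h2, mul_one, pow_one, C_smul, C_smul, smul_smul]
        norm_num
      rw [this, smul_smul]
      norm_num
    · rw [Pi.single_eq_of_ne (by omega), if_neg (by omega)]
      simp

structure Good (A : VertexAlgebra PP) : Prop where
  one : A.one = 1
  h : A.Y (X 0) = hOp
  T : ∀ (x : PP) (n : ℤ), A.Y (TT x) n = (-(n : ℚ)) • A.Y x (n - 1)

theorem ext_op {D E : Module.End ℚ PP} (h1 : D 1 = E 1)
    (h : ∀ (l : ℕ) (p : PP), D p = E p → D (X l * p) = E (X l * p)) : D = E := by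
  have h3 : LinearMap.ker (D - E) = ⊤ := by
    apply hOp_gen
    · simp [h1]
    · intro l v hv
      rw [LinearMap.mem_ker, LinearMap.sub_apply, sub_eq_zero] at hv ⊢
      exact h l v hv
  exact sub_eq_zero.1 (LinearMap.ker_eq_top.1 h3)

/-- `[h_n, omega_m] = n h_(n+m-1)` -/
theorem h_om_comm {A : VertexAlgebra PP} (hA : Good A) (n m : ℤ) (v : PP) :
    hOp n (A.Y om m v) - A.Y om m (hOp n v) = (n : ℚ) • hOp (n + m - 1) v := by
  have h := comm_formula A (X 0) om v n m
  rw [hA.h] at h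
  rw [h, finsum_eq_single _ 1]
  · rw [h_om, if_pos rfl, hA.h, bc_one_right]
    simp
  · intro i hi
    rw [h_om, if_neg hi, map_zero, Pi.zero_apply, LinearMap.zero_apply, smul_zero]

theorem om_one {A : VertexAlgebra PP} (hA : Good A) (n : ℤ) (hn : 0 ≤ n) :
    A.Y om n 1 = 0 := by
  have := A.one_right' om n hn
  rwa [hA.one] at this

theorem om_X {A : VertexAlgebra PP} (hA : Good A) (m : ℤ) (l : ℕ) (p : PP) :
    A.Y om m (X l * p) = X l * A.Y om m p + ((l : ℚ) + 1) • hOp (-(l : ℤ) + m - 2) p := by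
  have h := h_om_comm hA (-(l : ℤ) - 1) m p
  rw [hOp_neg, hOp_neg] at h
  have e : -(l : ℤ) - 1 + m - 1 = -(l : ℤ) + m - 2 := by ring
  rw [e] at h
  rw [sub_eq_iff_eq_add] at h
  have h2 : A.Y om m (X l * p) = X l * A.Y om m p -
      ((((-(l : ℤ) - 1 : ℤ) : ℚ)) • hOp (-(l : ℤ) + m - 2) p) := by
    rw [h]
    abel
  rw [h2]
  push_cast
  module

theorem om0 {A : VertexAlgebra PP} (hA : Good A) : A.Y om 0 = TT := by
  apply ext_op
  · rw [om_one hA 0 le_rfl, TT_one]
  · intro l p hp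
    rw [om_X hA, hp, TT_apply, TT_apply, Derivation.leibniz, DD_X, smul_eq_mul, smul_eq_mul]
    have e : -(l : ℤ) + 0 - 2 = -((l + 1 : ℕ) : ℤ) - 1 := by push_cast; ring
    rw [e, hOp_neg, smul_eq_C_mul]
    ring

theorem om1 {A : VertexAlgebra PP} (hA : Good A) : A.Y om 1 = NN.toLinearMap := by
  apply ext_op
  · rw [om_one hA 1 (by norm_num)]
    exact (Derivation.map_one_eq_zero _).symm
  · intro l p hp
    rw [om_X hA, hp]
    show X l * NN p + _ = NN (X l * p)
    rw [Derivation.leibniz, NN_X, smul_eq_mul, smul_eq_mul]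
    have e : -(l : ℤ) + 1 - 2 = -(l : ℤ) - 1 := by ring
    rw [e, hOp_neg, smul_eq_C_mul]
    ring

/-- The derivation `X_0 ↦ 0, X_(i+1) ↦ (i+2) X_i`, which is `L(1)`. -/
noncomputable def MM : Derivation ℚ PP PP :=
  MvPolynomial.mkDerivation ℚ (fun i : ℕ => if i = 0 then 0 else C ((i : ℚ) + 1) * X (i - 1))

lemma MM_X (i : ℕ) : MM (X i : PP) = if i = 0 then 0 else C ((i : ℚ) + 1) * X (i - 1) := by
  unfold MM
  rw [MvPolynomial.mkDerivation_X]

theorem om2 {A : VertexAlgebra PP} (hA : Good A) : A.Y om 2 = MM.toLinearMap := by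
  apply ext_op
  · rw [om_one hA 2 (by norm_num)]
    exact (Derivation.map_one_eq_zero _).symm
  · intro l p hp
    rw [om_X hA, hp]
    show X l * MM p + _ = MM (X l * p)
    rw [Derivation.leibniz, MM_X, smul_eq_mul, smul_eq_mul]
    by_cases hl : l = 0
    · subst hl
      simp [hOp_zero]
    · have e : -(l : ℤ) + 2 - 2 = -((l - 1 : ℕ) : ℤ) - 1 := by omega
      rw [e, hOp_neg, smul_eq_C_mul, if_neg hl]
      ring

/-- the products `omega_n omega` for `n >= 2` -/
theorem om_om {A : VertexAlgebra PP} (hA : Good A) (n : ℤ) (hn : 2 ≤ n) :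
    A.Y om n om = if n = 3 then C (1 / 2) else 0 := by
  have e1 : om = (3 : ℚ) • (X 0 * (X 0 * 1)) := by
    rw [om, C_smul]
    ring_nf
  have h1 : A.Y om n (X 0 * 1) = 0 := by
    rw [om_X hA, om_one hA n (by omega), mul_zero, zero_add, hOp_one _ (by push_cast; omega),
      smul_zero]
  have h2 : A.Y om n (X 0 * (X 0 * 1)) = hOp (n - 2) (X 0) := by
    rw [om_X hA, h1, mul_zero, zero_add, mul_one]
    simp
  have h3 : A.Y om n om = (3 : ℚ) • hOp (n - 2) (X 0) := by
    have : A.Y om n om = A.Y om n ((3 : ℚ) • (X 0 * (X 0 * 1))) := by rw [← e1]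
    rw [this, map_smul, h2]
  rw [h3]
  rcases tri (n - 2) with ⟨l, hl⟩ | hl | ⟨l, hl⟩
  · omega
  · rw [hl, hOp_zero, if_neg (by omega)]
    simp
  · rw [hl, hOp_pos, pderiv_X]
    by_cases h : l = 0
    · subst h
      rw [Pi.single_eq_same, if_pos (by omega)]
      rw [smul_smul, smul_eq_C_mul, mul_one]
      norm_num
    · rw [Pi.single_eq_of_ne (by omega), if_neg (by omega)]
      simp

theorem NN_om : NN om = (2 : ℚ) • om := by
  rw [om, Derivation.leibniz, Derivation.leibniz_pow, NN_X]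
  simp only [smul_eq_mul, MvPolynomial.smul_eq_C_mul]
  have : NN (C 3 : PP) = 0 := by
    have := NN.map_algebraMap 3
    exact this
  have h2 : (C 2 : PP) = 2 := map_ofNat C 2
  rw [this, h2]
  simp
  ring

theorem vir {A : VertexAlgebra PP} (hA : Good A) (m n : ℤ) (v : PP) :
    A.Y om (m + 1) (A.Y om (n + 1) v) - A.Y om (n + 1) (A.Y om (m + 1) v) =
      ((m : ℚ) - n) • A.Y om (m + n + 1) v +
      (if m + n = 0 then ((m : ℚ) ^ 3 - m) / 12 * 1 else 0) • v := by
  rw [comm_formula]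
  have hL : ∑ᶠ i : ℕ, bc (m + 1) i • A.Y (A.Y om i om) (m + 1 + (n + 1) - i) v =
      ∑ i ∈ Finset.range 4, bc (m + 1) i • A.Y (A.Y om i om) (m + 1 + (n + 1) - i) v := by
    apply finsum_eq_sum_of_support_subset
    intro i hi
    rw [Finset.coe_range, Set.mem_Iio]
    by_contra hcon
    push Not at hcon
    apply hi
    show bc (m + 1) i • A.Y (A.Y om i om) (m + 1 + (n + 1) - i) v = 0
    rw [om_om hA _ (by omega), if_neg (by omega), map_zero, Pi.zero_apply,
      LinearMap.zero_apply, smul_zero]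
  rw [hL]
  have e0 : A.Y om ((0 : ℕ) : ℤ) om = TT om := by
    simp [om0 hA]
  have e1 : A.Y om ((1 : ℕ) : ℤ) om = (2 : ℚ) • om := by
    rw [← NN_om, Nat.cast_one, om1 hA]
    rfl
  have e2 : A.Y om ((2 : ℕ) : ℤ) om = 0 := by
    rw [om_om hA _ (by norm_num), if_neg (by norm_num)]
  have e3 : A.Y om ((3 : ℕ) : ℤ) om = (1 / 2 : ℚ) • A.one := by
    rw [om_om hA _ (by norm_num), if_pos (by norm_num), hA.one, smul_eq_C_mul, mul_one]
  rw [Finset.sum_range_succ, Finset.sum_range_succ, Finset.sum_range_succ,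
    Finset.sum_range_succ, Finset.sum_range_zero, e0, e1, e2, e3, hA.T, bc_zero_right,
    bc_one_right, bc_three]
  have s0 : m + 1 + (n + 1) - ((0 : ℕ) : ℤ) - 1 = m + n + 1 := by push_cast; ring
  have s1 : m + 1 + (n + 1) - ((1 : ℕ) : ℤ) = m + n + 1 := by push_cast; ring
  have s3 : m + 1 + (n + 1) - ((3 : ℕ) : ℤ) = m + n - 1 := by push_cast; ring
  rw [s0, s1, s3]
  simp only [map_smul, map_zero, Pi.smul_apply, Pi.zero_apply, LinearMap.smul_apply,
    LinearMap.zero_apply, smul_zero, add_zero, zero_add, one_smul, A.one_left]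
  have hiff : (m + n - 1 = -1) ↔ (m + n = 0) := by omega
  simp only [hiff]
  split_ifs with h
  · simp only [smul_smul]
    push_cast
    rw [← add_smul]
    congr 1
    · congr 1
      ring
    · congr 1
      ring
  · simp only [smul_zero, zero_smul, add_zero, smul_smul]
    rw [← add_smul]
    congr 1
    push_cast
    ring

end Pool.Agent.Q19.VOQ
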