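import Mathlib

/-!
Vertex operator algebras over the rational numbers in component form, invariant bilinear forms and
integral forms.
-/

set_option autoImplicit false

namespace Pool.Agent.Q19.VOQ

/-- The binomial coefficient `r (r-1) ... (r-i+1) / i!` of an integer `r`, as a rational number. -/
noncomputable def bc (r : ℤ) (i : ℕ) : ℚ := ((Ring.choose r i : ℤ) : ℚ)

/-- The Borcherds (Jacobi) identity in components, for operators `Y a n` (the mode `a_n`) of a
space `V`. All the sums below have only finitely many non-zero terms as soon as the truncation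
condition holds. -/
def BorcherdsId {V : Type} [AddCommGroup V] [Module ℚ V]
    (Y : V →ₗ[ℚ] (ℤ → Module.End ℚ V)) : Prop :=
  ∀ (a b w : V) (l m n : ℤ),
    ∑ᶠ i : ℕ, bc l i • Y (Y a (n + i) b) (l + m - i) w =
    ∑ᶠ i : ℕ, ((-1 : ℚ) ^ i * bc n i) •
      (Y a (l + n - i) (Y b (m + i) w) - (-1 : ℚ) ^ n • Y b (m + n - i) (Y a (l + i) w))

/-- Vertex algebras: `Y a n` is the mode `a_n`, i.e. `Y(a,z) = sum_n a_n z^(-n-1)`. -/
structure VertexAlgebra (V : Type) [AddCommGroup V] [Module ℚ V] where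
  Y : V →ₗ[ℚ] (ℤ → Module.End ℚ V)
  one : V
  trunc : ∀ a v : V, ∃ N : ℤ, ∀ n, N ≤ n → Y a n v = 0
  one_left : ∀ (n : ℤ) (v : V), Y one n v = if n = -1 then v else 0
  one_right : ∀ a : V, Y a (-1) one = a
  one_right' : ∀ (a : V) (n : ℤ), 0 ≤ n → Y a n one = 0
  borcherds : BorcherdsId Y

/-- Vertex operator algebras: a vertex algebra with a conformal vector `omega`, whose modes
`L(n) = omega_(n+1)` satisfy the Virasoro relations with central charge `c`, `L(-1)` is the
translation operator, `V` is the direct sum of the eigenspaces `V_n` of `L(0)` with integer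
eigenvalues `n`, all `V_n` are finite dimensional and `V_n = 0` for `n` sufficiently small. -/
structure VOA (V : Type) [AddCommGroup V] [Module ℚ V] extends VertexAlgebra V where
  omega : V
  c : ℚ
  virasoro : ∀ (m n : ℤ) (v : V),
    Y omega (m + 1) (Y omega (n + 1) v) - Y omega (n + 1) (Y omega (m + 1) v) =
      ((m : ℚ) - n) • Y omega (m + n + 1) v +
      (if m + n = 0 then ((m : ℚ) ^ 3 - m) / 12 * c else 0) • v
  deriv : ∀ (a : V) (n : ℤ), Y (Y omega 0 a) n = (-(n : ℚ)) • Y a (n - 1)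
  internal : DirectSum.IsInternal
    (fun n : ℤ => LinearMap.ker (Y omega 1 - (n : ℚ) • (LinearMap.id : V →ₗ[ℚ] V)))
  finite : ∀ n : ℤ, FiniteDimensional ℚ
    (LinearMap.ker (Y omega 1 - (n : ℚ) • (LinearMap.id : V →ₗ[ℚ] V)))
  bounded : ∃ N : ℤ, ∀ n < N,
    LinearMap.ker (Y omega 1 - (n : ℚ) • (LinearMap.id : V →ₗ[ℚ] V)) = ⊥

namespace VOA

variable {V : Type} [AddCommGroup V] [Module ℚ V]

/-- `V_n`, the eigenspace of `L(0)` for the eigenvalue `n`. -/
def wt (A : VOA V) (n : ℤ) : Submodule ℚ V :=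
  LinearMap.ker (A.Y A.omega 1 - (n : ℚ) • (LinearMap.id : V →ₗ[ℚ] V))

/-- `L(1) = omega_2`. -/
def L1 (A : VOA V) : Module.End ℚ V := A.Y A.omega 2

/-- Invariant bilinear forms (Frenkel, Huang, Lepowsky):
`(Y(a,z)b,c) = (b, Y(e^(z L(1)) (-z^(-2))^(L(0)) a, z^(-1)) c)`, in components: for `a` of weight
`k` the adjoint of `a_n` is the sum over `j >= 0` of `(-1)^k/j! (L(1)^j a)_(2k-n-j-2)`. -/
def IsInvariant (A : VOA V) (B : V →ₗ[ℚ] V →ₗ[ℚ] ℚ) : Prop :=
  ∀ (k : ℤ) (a : V), a ∈ A.wt k → ∀ (n : ℤ) (b c : V),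
    B (A.Y a n b) c = ∑ᶠ j : ℕ, ((-1 : ℚ) ^ k / (j.factorial : ℚ)) *
      B b (A.Y ((A.L1 ^ j) a) (2 * k - n - j - 2) c)

/-- Integral forms: `J` is the `Z`-span of a `Q`-basis of `V`, closed under all products
`a_k b`, and contains positive integer multiples of the vacuum and of `omega`. -/
structure IsIntegralForm (A : VOA V) (J : AddSubgroup V) : Prop where
  span : ∃ (ι : Type) (e : Module.Basis ι ℚ V), J = AddSubgroup.closure (Set.range e)
  closed : ∀ a ∈ J, ∀ b ∈ J, ∀ k : ℤ, A.Y a k b ∈ J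
  one : ∃ p : ℕ, 0 < p ∧ p • A.one ∈ J
  omega : ∃ q : ℕ, 0 < q ∧ q • A.omega ∈ J

/-- Finitely generated: the smallest integral form containing some finite set. -/
def FinGen (A : VOA V) (J : AddSubgroup V) : Prop :=
  ∃ S : Set V, S.Finite ∧ S ⊆ J ∧ ∀ J' : AddSubgroup V, A.IsIntegralForm J' → S ⊆ J' → J ≤ J'

end VOA

end Pool.Agent.Q19.VOQ
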