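import Pool.Agent.Q19.VOQ.Wts

/-!
The invariant bilinear form of the Heisenberg vertex operator algebra.
-/

set_option autoImplicit false

namespace Pool.Agent.Q19.VOQ

open MvPolynomial

/-- the value of the form on a monomial -/
noncomputable def wF (s : ℕ →₀ ℕ) : ℚ :=
  s.prod fun i k => (k.factorial : ℚ) * (-(((i : ℚ) + 1) / 6)) ^ k

theorem wF_zero : wF 0 = 1 := by simp [wF]

theorem wF_add (s : ℕ →₀ ℕ) (l : ℕ) :
    wF (s + Finsupp.single l 1) = -(((l : ℚ) + 1) / 6) * ((s l : ℚ) + 1) * wF s := by
  unfold wF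
  rw [← Finsupp.mul_prod_erase' (s + Finsupp.single l 1) l _ (by simp),
    ← Finsupp.mul_prod_erase' s l _ (by simp)]
  have h1 : (s + Finsupp.single l 1).erase l = s.erase l := by
    rw [Finsupp.erase_add, Finsupp.erase_single, add_zero]
  rw [h1]
  simp only [Finsupp.coe_add, Pi.add_apply, Finsupp.single_eq_same]
  rw [Nat.factorial_succ, pow_succ]
  push_cast
  ring

theorem wF_ne (s : ℕ →₀ ℕ) : wF s ≠ 0 := by
  unfold wF
  rw [Finsupp.prod]
  refine Finset.prod_ne_zero_iff.2 fun i _ => ?_
  refine mul_ne_zero (Nat.cast_ne_zero.2 (Nat.factorial_ne_zero _)) (pow_ne_zero _ ?_)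
  have : (0 : ℚ) < (i : ℚ) + 1 := by positivity
  intro h
  linarith

/-- the bilinear form -/
noncomputable def frm : PP →ₗ[ℚ] PP →ₗ[ℚ] ℚ :=
  bas.constr ℚ (fun s => wF s • lcoeff ℚ s)

theorem frm_mono (s : ℕ →₀ ℕ) (q : PP) : frm (monomial s 1) q = wF s * coeff s q := by
  unfold frm
  rw [← bas_apply, Module.Basis.constr_basis]
  simp [lcoeff_apply]

theorem frm_symm (p q : PP) : frm p q = frm q p := by
  have h : frm = frm.flip := by
    apply bas.ext
    intro s
    apply bas.ext
    intro t
    rw [LinearMap.flip_apply, bas_apply, bas_apply, frm_mono, frm_mono, coeff_monomial,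
      coeff_monomial]
    by_cases hst : s = t
    · subst hst; rfl
    · rw [if_neg hst, if_neg (Ne.symm hst), mul_zero, mul_zero]
  exact congrArg (fun f => f p q) h

theorem coeff_pderiv' (n : ℕ →₀ ℕ) (i : ℕ) (p : PP) :
    coeff n (pderiv i p) = ((n i : ℚ) + 1) * coeff (n + Finsupp.single i 1) p := by
  induction p using MvPolynomial.induction_on' with
  | add p q hp hq => rw [map_add, coeff_add, hp, hq, coeff_add, mul_add]
  | monomial s a =>
    rw [pderiv_monomial, coeff_monomial, coeff_monomial]
    by_cases h : s = n + Finsupp.single i 1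
    · subst h
      rw [if_pos (by simp), if_pos rfl]
      simp only [Finsupp.coe_add, Pi.add_apply, Finsupp.single_eq_same, Nat.cast_add,
        Nat.cast_one]
      ring
    · rw [if_neg h, mul_zero]
      by_cases h0 : s i = 0
      · simp [h0]
      · rw [if_neg]
        intro h1
        apply h
        rw [← h1]
        ext j
        by_cases hj : j = i
        · subst hj
          simp only [Finsupp.coe_add, Finsupp.coe_tsub, Pi.add_apply, Pi.sub_apply,
            Finsupp.single_eq_same]
          omega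
        · simp [Ne.symm hj]

theorem frm_X (l : ℕ) (p q : PP) :
    frm (X l * p) q = -(((l : ℚ) + 1) / 6) * frm p (pderiv l q) := by
  have h : frm.comp (LinearMap.mulLeft ℚ (X l)) =
      (-(((l : ℚ) + 1) / 6)) • (frm.compl₂ (pderiv l).toLinearMap) := by
    apply bas.ext
    intro s
    refine LinearMap.ext fun q => ?_
    rw [bas_apply, LinearMap.comp_apply, LinearMap.mulLeft_apply, LinearMap.smul_apply,
      LinearMap.smul_apply, LinearMap.compl₂_apply]
    have h2 : X l * monomial s (1 : ℚ) = monomial (s + Finsupp.single l 1) 1 := by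
      rw [X, monomial_mul, one_mul, add_comm]
    rw [h2, frm_mono, frm_mono]
    show _ = _ • (wF s * coeff s (pderiv l q))
    rw [coeff_pderiv', wF_add, smul_eq_mul]
    ring
  exact congrArg (fun f => f p q) h

theorem frm_h (n : ℤ) (p q : PP) : frm (hOp n p) q = - frm p (hOp (-n) q) := by
  have key : ∀ (l : ℕ) (p q : PP), frm (hOp (-(l : ℤ) - 1) p) q =
      - frm p (hOp ((l : ℤ) + 1) q) := by
    intro l p q
    rw [hOp_neg, hOp_pos, frm_X, map_smul, smul_eq_mul, neg_mul]
  rcases tri n with ⟨l, rfl⟩ | rfl | ⟨l, rfl⟩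
  · rw [key]
    congr 3
    ring
  · simp [hOp_zero]
  · have e : -((l : ℤ) + 1) = -(l : ℤ) - 1 := by ring
    rw [e, frm_symm, frm_symm p, key, neg_neg]

theorem frm_nondeg (p : PP) (h : ∀ q, frm p q = 0) : p = 0 := by
  ext s
  rw [coeff_zero]
  have h1 := h (monomial s 1)
  rw [frm_symm, frm_mono] at h1
  exact (mul_eq_zero.1 h1).resolve_left (wF_ne s)

theorem frm_one : frm 1 1 = 1 := by
  have h : (1 : PP) = monomial 0 1 := rfl
  have h2 := frm_mono 0 (monomial 0 1)
  rw [coeff_monomial, if_pos rfl, wF_zero, one_mul, ← h] at h2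
  exact h2

end Pool.Agent.Q19.VOQ
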