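import Pool.Agent.Q19.VOQ.Stm

/-! Project VO (MP_11a9fb_al, helper345): the reconstruction theorem. -/

set_option autoImplicit false

namespace Pool.Agent.Q19.VOQ.Recon

open Pool.Agent.Q19.VOQ

variable {V : Type} [AddCommGroup V] [Module ℚ V]

/-- sets of pairwise local, translation covariant, creative fields -/
structure GoodS (T : Module.End ℚ V) (o : V) (S : Set (ℤ → Module.End ℚ V)) : Prop where
  fl : ∀ a ∈ S, a ∈ FL V
  cov : ∀ a ∈ S, Cov T a
  cre : ∀ a ∈ S, Cre o a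
  loc : ∀ a ∈ S, ∀ b ∈ S, Loc a b

theorem GoodS.insert (hSYM : S_SYM) {T : Module.End ℚ V} {o : V} {S : Set (ℤ → Module.End ℚ V)}
    (h : GoodS T o S) {c : ℤ → Module.End ℚ V} (h1 : c ∈ FL V) (h2 : Cov T c) (h3 : Cre o c)
    (h4 : ∀ a ∈ S, Loc c a) (h5 : Loc c c) : GoodS T o (insert c S) := by
  refine ⟨?_, ?_, ?_, ?_⟩
  · rintro a (rfl | ha)
    · exact h1
    · exact h.fl a ha
  · rintro a (rfl | ha)
    · exact h2
    · exact h.cov a ha
  · rintro a (rfl | ha)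
    · exact h3
    · exact h.cre a ha
  · rintro a (rfl | ha) b (rfl | hb)
    · exact h5
    · exact h4 b hb
    · exact hSYM V b a h1 (h.fl a ha) (h4 a ha)
    · exact h.loc a ha b hb

theorem exists_max {T : Module.End ℚ V} {o : V} {G : Set (ℤ → Module.End ℚ V)}
    (h : GoodS T o G) : ∃ M, G ⊆ M ∧ Maximal (fun S => GoodS T o S) M := by
  have := zorn_subset_nonempty {S | GoodS T o S} ?_ G h
  · exact this
  · intro c hc hchain hne
    refine ⟨⋃₀ c, ⟨?_, ?_, ?_, ?_⟩, fun s hs => Set.subset_sUnion_of_mem hs⟩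
    · rintro a ⟨s, hs, ha⟩
      exact (hc hs).fl a ha
    · rintro a ⟨s, hs, ha⟩
      exact (hc hs).cov a ha
    · rintro a ⟨s, hs, ha⟩
      exact (hc hs).cre a ha
    · rintro a ⟨s, hs, ha⟩ b ⟨t, ht, hb⟩
      rcases hchain.total hs ht with h1 | h1
      · exact (hc ht).loc a (h1 ha) b hb
      · exact (hc hs).loc a ha b (h1 hb)

theorem mem_max (hSYM : S_SYM) {T : Module.End ℚ V} {o : V} {M : Set (ℤ → Module.End ℚ V)}
    (h : Maximal (fun S => GoodS T o S) M) {c : ℤ → Module.End ℚ V} (h1 : c ∈ FL V)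
    (h2 : Cov T c) (h3 : Cre o c) (h4 : ∀ a ∈ M, Loc c a) (h5 : Loc c c) : c ∈ M :=
  h.2 (h.1.insert hSYM h1 h2 h3 h4 h5) (Set.subset_insert c M) (Set.mem_insert c M)

theorem cov_idf (T : Module.End ℚ V) : Cov T (idf : ℤ → Module.End ℚ V) := by
  intro n v
  unfold idf
  by_cases h : n = -1
  · subst h
    simp
  · by_cases h0 : n = 0
    · subst h0
      simp
    · have h1 : n - 1 ≠ -1 := by omega
      simp [h, h1]

theorem cre_idf (o : V) : Cre o (idf : ℤ → Module.End ℚ V) := by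
  intro n hn
  have h : n ≠ -1 := by omega
  simp [idf, h]

theorem cov_add {T : Module.End ℚ V} {a b : ℤ → Module.End ℚ V} (ha : Cov T a) (hb : Cov T b) :
    Cov T (a + b) := by
  intro n v
  have h1 := ha n v
  have h2 := hb n v
  simp only [Pi.add_apply, LinearMap.add_apply, map_add, smul_add]
  rw [← h1, ← h2]
  abel

theorem cov_smul {T : Module.End ℚ V} {a : ℤ → Module.End ℚ V} (ha : Cov T a) (k : ℚ) :
    Cov T (k • a) := by
  intro n v
  have h1 := ha n v
  simp only [Pi.smul_apply, LinearMap.smul_apply, map_smul]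
  rw [← smul_sub, h1, smul_comm]

theorem cre_add {o : V} {a b : ℤ → Module.End ℚ V} (ha : Cre o a) (hb : Cre o b) :
    Cre o (a + b) := by
  intro n hn
  simp only [Pi.add_apply, LinearMap.add_apply, ha n hn, hb n hn, add_zero]

theorem cre_smul {o : V} {a : ℤ → Module.End ℚ V} (ha : Cre o a) (k : ℚ) :
    Cre o (k • a) := by
  intro n hn
  simp only [Pi.smul_apply, LinearMap.smul_apply, ha n hn, smul_zero]

theorem bc_neg_two (i : ℕ) : bc (-2) i = (-1 : ℚ) ^ i * ((i : ℚ) + 1) := by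
  unfold bc
  have h : Ring.choose (-2 : ℤ) i = (-1) ^ i * ((i : ℤ) + 1) := by
    rw [Ring.choose_neg (2 : ℤ) i]
    have h1 : (2 : ℤ) + i - 1 = ((i + 1 : ℕ) : ℤ) := by push_cast; ring
    rw [h1, Ring.choose_natCast]
    simp [Int.negOnePow_def, Units.smul_def]
    ring
  rw [h]
  push_cast
  ring

theorem sgn_mul (i : ℕ) : (-1 : ℚ) ^ i * bc (-2) i = (i : ℚ) + 1 := by
  rw [bc_neg_two, ← mul_assoc, ← pow_add]
  have : (-1 : ℚ) ^ (i + i) = 1 := Even.neg_one_pow ⟨i, rfl⟩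
  rw [this, one_mul]

/-- the derivative is the `(-2)`-product with the identity field -/
theorem prd_deriv (a : ℤ → Module.End ℚ V) :
    IsPrd (-2) a idf (fun n => (-(n : ℚ)) • a (n - 1)) := by
  intro m v
  unfold RR
  have hs : (-1 : ℚ) ^ (-2 : ℤ) = 1 := by norm_num
  rcases lt_trichotomy m 0 with hm | hm | hm
  · obtain ⟨k, hk⟩ : ∃ k : ℕ, m = -(k : ℤ) - 1 := ⟨(-m - 1).toNat, by omega⟩
    rw [finsum_eq_single _ k]
    · unfold trm
      rw [sgn_mul, hk]
      have h1 : (-(k : ℤ) - 1 + (k : ℤ)) = -1 := by ring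
      have h2 : (-(k : ℤ) - 1 + -2 - (k : ℤ)) ≠ -1 := by omega
      have h3 : (0 : ℤ) + -2 - (k : ℤ) = -(k : ℤ) - 1 - 1 := by ring
      rw [h1, h3]
      simp only [idf, if_neg h2, if_true, LinearMap.id_apply, LinearMap.zero_apply, smul_zero,
        sub_zero, LinearMap.smul_apply]
      congr 1
      push_cast
      ring
    · intro i hi
      have h1 : m + (i : ℤ) ≠ -1 := by omega
      have h2 : m + -2 - (i : ℤ) ≠ -1 := by omega
      simp [trm, idf, h1, h2]
  · subst hm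
    rw [finsum_eq_zero_of_forall_eq_zero]
    · simp
    · intro i
      have h1 : (0 : ℤ) + (i : ℤ) ≠ -1 := by omega
      have h2 : (0 : ℤ) + -2 - (i : ℤ) ≠ -1 := by omega
      simp only [trm, idf, if_neg h1, if_neg h2, LinearMap.zero_apply, map_zero, smul_zero,
        sub_zero]
  · obtain ⟨k, hk⟩ : ∃ k : ℕ, m = (k : ℤ) + 1 := ⟨(m - 1).toNat, by omega⟩
    rw [finsum_eq_single _ k]
    · unfold trm
      rw [sgn_mul, hk]
      have h1 : ((k : ℤ) + 1 + (k : ℤ)) ≠ -1 := by omega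
      have h2 : ((k : ℤ) + 1 + -2 - (k : ℤ)) = -1 := by ring
      have h3 : (0 : ℤ) + (k : ℤ) = (k : ℤ) + 1 - 1 := by ring
      rw [h2, h3, hs]
      simp only [idf, if_neg h1, if_true, LinearMap.id_apply, LinearMap.zero_apply, map_zero,
        zero_sub, LinearMap.smul_apply, one_smul, smul_neg]
      rw [← neg_smul]
      congr 1
      push_cast
      ring
    · intro i hi
      have h1 : m + (i : ℤ) ≠ -1 := by omega
      have h2 : m + -2 - (i : ℤ) ≠ -1 := by omega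
      simp [trm, idf, h1, h2]


/-- the state of a family -/
def st (o : V) : (ℤ → Module.End ℚ V) →ₗ[ℚ] V where
  toFun a := a (-1) o
  map_add' _ _ := rfl
  map_smul' _ _ := rfl

theorem prd_unique {n : ℤ} {a b c c' : ℤ → Module.End ℚ V} (h : IsPrd n a b c)
    (h' : IsPrd n a b c') : c = c' := by
  funext m
  refine LinearMap.ext fun v => ?_
  rw [h m v, h' m v]

theorem recon : S_FIN → S_PAS → S_INT → S_PRD → S_SYM → S_LAD → S_DONG → S_COV → S_CRE → S_GOD →
    S_REC := by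
  intro _ _ hINT hPRD hSYM hLAD hDONG hCOV hCRE hGOD V _ _ T o G hT hG hGl hgen
  obtain ⟨hLadd, hLsmul, hLid, hLid'⟩ := hLAD V
  have hGood : GoodS T o G := ⟨fun a ha => (hG a ha).1, fun a ha => (hG a ha).2.1,
    fun a ha => (hG a ha).2.2, hGl⟩
  obtain ⟨M, hGM, hM⟩ := exists_max hGood
  have hMg : GoodS T o M := hM.1
  have hid : (idf : ℤ → Module.End ℚ V) ∈ M :=
    mem_max hSYM hM hLid (cov_idf T) (cre_idf o) (fun a ha => hLid' a (hMg.fl a ha))
      (hLid' idf hLid)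
  have hadd : ∀ a ∈ M, ∀ b ∈ M, a + b ∈ M := by
    intro a ha b hb
    have h1 := (FL V).add_mem (hMg.fl a ha) (hMg.fl b hb)
    have h2 : ∀ x ∈ M, Loc (a + b) x := fun x hx => hLadd a b x (hMg.fl a ha) (hMg.fl b hb)
      (hMg.fl x hx) (hMg.loc a ha x hx) (hMg.loc b hb x hx)
    refine mem_max hSYM hM h1 (cov_add (hMg.cov a ha) (hMg.cov b hb))
      (cre_add (hMg.cre a ha) (hMg.cre b hb)) h2 ?_
    exact hLadd a b (a + b) (hMg.fl a ha) (hMg.fl b hb) h1
      (hSYM V _ _ h1 (hMg.fl a ha) (h2 a ha)) (hSYM V _ _ h1 (hMg.fl b hb) (h2 b hb))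
  have hsmul : ∀ (k : ℚ), ∀ a ∈ M, k • a ∈ M := by
    intro k a ha
    have h1 := (FL V).smul_mem k (hMg.fl a ha)
    have h2 : ∀ x ∈ M, Loc (k • a) x := fun x hx => hLsmul k a x (hMg.fl a ha)
      (hMg.fl x hx) (hMg.loc a ha x hx)
    refine mem_max hSYM hM h1 (cov_smul (hMg.cov a ha) k) (cre_smul (hMg.cre a ha) k) h2 ?_
    exact hLsmul k a (k • a) (hMg.fl a ha) h1 (hSYM V _ _ h1 (hMg.fl a ha) (h2 a ha))
  have hprd : ∀ (n : ℤ), ∀ a ∈ M, ∀ b ∈ M, ∃ c ∈ M, IsPrd n a b c := by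
    intro n a ha b hb
    have hfa := hMg.fl a ha
    have hfb := hMg.fl b hb
    obtain ⟨c, hc, hcp⟩ := hPRD V a b hfa hfb n
    refine ⟨c, ?_, hcp⟩
    have h2 : ∀ x ∈ M, Loc c x := fun x hx => hDONG V a b x c hfa hfb (hMg.fl x hx) hc
      (hMg.loc a ha b hb) (hMg.loc a ha x hx) (hMg.loc b hb x hx) n hcp
    refine mem_max hSYM hM hc (hCOV V T a b c hfa hfb (hMg.cov a ha) (hMg.cov b hb) n hcp)
      (hCRE V o a b c hfa hfb (hMg.cre a ha) (hMg.cre b hb) n hcp).1 h2 ?_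
    exact hDONG V a b c c hfa hfb hc hc (hMg.loc a ha b hb)
      (hSYM V _ _ hc hfa (h2 a ha)) (hSYM V _ _ hc hfb (h2 b hb)) n hcp
  obtain ⟨MS, hMS⟩ : ∃ MS : Submodule ℚ (ℤ → Module.End ℚ V), ∀ a, a ∈ MS ↔ a ∈ M := by
    refine ⟨{ carrier := M
              add_mem' := fun {a b} ha hb => hadd a ha b hb
              zero_mem' := ?_
              smul_mem' := fun k a ha => hsmul k a ha }, fun a => Iff.rfl⟩
    have h1 := hsmul 0 _ hid
    rw [zero_smul] at h1
    exact h1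
  have hstid : st o (idf : ℤ → Module.End ℚ V) = o := by
    show idf (-1) o = o
    simp [idf]
  -- surjectivity
  have htop : MS.map (st o) = ⊤ := by
    refine hgen _ ⟨idf, (hMS _).2 hid, hstid⟩ ?_
    rintro a ha n v ⟨b, hb, rfl⟩
    have hbM : b ∈ M := (hMS b).1 hb
    have haM := hGM ha
    obtain ⟨c, hc, hcp⟩ := hprd n a haM b hbM
    refine ⟨c, (hMS c).2 hc, ?_⟩
    exact (hCRE V o a b c (hMg.fl a haM) (hMg.fl b hbM) (hMg.cre a haM) (hMg.cre b hbM) n hcp).2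
  have hsurj : ∀ v : V, ∃ b ∈ M, b (-1) o = v := by
    intro v
    have h1 : v ∈ MS.map (st o) := by
      rw [htop]
      exact Submodule.mem_top
    obtain ⟨b, hb, hb'⟩ := h1
    exact ⟨b, (hMS b).1 hb, hb'⟩
  -- injectivity
  have hinj0 : ∀ a ∈ M, a (-1) o = 0 → a = 0 := by
    intro a ha h0
    funext n
    refine LinearMap.ext fun v => ?_
    obtain ⟨b, hb, rfl⟩ := hsurj v
    exact hGOD V T o a b (hMg.fl a ha) (hMg.fl b hb) (hMg.loc a ha b hb) (hMg.cre a ha)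
      (hMg.cre b hb) (hMg.cov a ha) hT h0 n
  have hbij : Function.Bijective ((st o).comp MS.subtype) := by
    constructor
    · rw [← LinearMap.ker_eq_bot, LinearMap.ker_eq_bot']
      rintro ⟨a, ha⟩ h0
      exact Subtype.ext (hinj0 a ((hMS a).1 ha) h0)
    · intro v
      obtain ⟨b, hb, hb'⟩ := hsurj v
      exact ⟨⟨b, (hMS b).2 hb⟩, hb'⟩
  obtain ⟨e, he⟩ : ∃ e : MS ≃ₗ[ℚ] V, ∀ a : MS, e a = (a : ℤ → Module.End ℚ V) (-1) o :=
    ⟨LinearEquiv.ofBijective _ hbij, fun a => rfl⟩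
  obtain ⟨Y, hY⟩ : ∃ Y : V →ₗ[ℚ] (ℤ → Module.End ℚ V), ∀ x, Y x = (e.symm x : MS) :=
    ⟨MS.subtype.comp e.symm.toLinearMap, fun x => rfl⟩
  have hYM : ∀ x, Y x ∈ M := by
    intro x
    rw [hY, ← hMS]
    exact (e.symm x).2
  have hYs : ∀ x, Y x (-1) o = x := by
    intro x
    rw [hY, ← he, LinearEquiv.apply_symm_apply]
  have hYu : ∀ a ∈ M, Y (a (-1) o) = a := by
    intro a ha
    have h1 : e ⟨a, (hMS a).2 ha⟩ = a (-1) o := he _
    rw [hY, ← h1, LinearEquiv.symm_apply_apply]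
  have hYo : Y o = idf := by
    have h1 := hYu idf hid
    have h2 : (idf : ℤ → Module.End ℚ V) (-1) o = o := hstid
    rw [h2] at h1
    exact h1
  have hYp : ∀ (a b : V) (n : ℤ), IsPrd n (Y a) (Y b) (Y (Y a n b)) := by
    intro a b n
    obtain ⟨c, hc, hcp⟩ := hprd n _ (hYM a) _ (hYM b)
    have h1 := (hCRE V o _ _ c (hMg.fl _ (hYM a)) (hMg.fl _ (hYM b)) (hMg.cre _ (hYM a))
      (hMg.cre _ (hYM b)) n hcp).2
    rw [hYs b] at h1
    rw [← h1, hYu c hc]
    exact hcp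
  refine ⟨{ Y := Y
            one := o
            trunc := fun a v => hMg.fl _ (hYM a) v
            one_left := ?_
            one_right := hYs
            one_right' := fun a n hn => hMg.cre _ (hYM a) n hn
            borcherds := ?_ }, rfl, fun a ha => hYu a (hGM ha), ?_⟩
  · intro n v
    rw [hYo]
    by_cases h : n = -1
    · simp [idf, h]
    · simp [idf, h]
  · intro a b w l m n
    have h1 := hINT V (Y a) (Y b) (hMg.fl _ (hYM a)) (hMg.fl _ (hYM b))
      (hMg.loc _ (hYM a) _ (hYM b)) n l m w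
    have h2 : ∀ i : ℕ, Y (Y a (n + i) b) (l + m - i) w =
        RR (Y a) (Y b) (n + i) 0 (l + m - i) w := fun i => hYp a b (n + i) (l + m - i) w
    simp only [h2]
    exact h1.symm
  · intro x n
    show Y (T x) n = (-(n : ℚ)) • Y x (n - 1)
    obtain ⟨c, hc, hcp⟩ := hprd (-2) _ (hYM x) _ hid
    have h1 : c = fun n : ℤ => (-(n : ℚ)) • Y x (n - 1) := prd_unique hcp (prd_deriv (Y x))
    have h2 : c (-1) o = T x := by
      have h3 := hMg.cov _ (hYM x) (-1) o
      rw [hYs, hT, map_zero, sub_zero] at h3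
      rw [h3, h1]
      simp
    have h4 := hYu c hc
    rw [h2] at h4
    rw [h4, h1]

end Pool.Agent.Q19.VOQ.Recon
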