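import Pool.Agent.Q19.VOQ.Fin
import Pool.Agent.Q19.VOQ.Prd
import Pool.Agent.Q19.VOQ.Int
import Pool.Agent.Q19.VOQ.Sym
import Pool.Agent.Q19.VOQ.Cov
import Pool.Agent.Q19.VOQ.CRE
import Pool.Agent.Q19.VOQ.Dong
import Pool.Agent.Q19.VOQ.Recon

/-!
The Heisenberg operators on the polynomial ring over the rational numbers, with
`[h_m, h_n] = (m/6) delta_(m+n,0)`, and the vertex algebra they generate.
-/

set_option autoImplicit false

namespace Pool.Agent.Q19.VOQ

open MvPolynomial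

theorem rec_main : S_REC := by
  have hFIN : S_FIN := Fin.fin
  have hPAS : S_PAS := Fin.pas
  have hDong : S_DONG := Dong.dong hFIN hPAS Sym.sym
  have hINT : S_INT := Int.int hPAS
  have hPRD : S_PRD := Fin.prd hFIN
  have hLAD : S_LAD := Fin.lad hFIN
  exact Recon.recon hFIN hPAS hINT hPRD Sym.sym hLAD hDong (Cov.cov hFIN) CRE.cre CRE.god

abbrev PP := MvPolynomial ℕ ℚ

/-- The Heisenberg operators: `hOp (-(l+1))` is multiplication by `X l`, `hOp 0` is zero,
`hOp (l+1)` is `(l+1)/6 d/dX_l`. -/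
noncomputable def hOp : ℤ → Module.End ℚ PP
  | .negSucc l => LinearMap.mulLeft ℚ (X l)
  | .ofNat 0 => 0
  | .ofNat (l + 1) => (((l : ℚ) + 1) / 6) • (pderiv l).toLinearMap

theorem hOp_neg (l : ℕ) (p : PP) : hOp (-(l : ℤ) - 1) p = X l * p := by
  have h : (-(l : ℤ) - 1) = .negSucc l := by omega
  rw [h]
  rfl

theorem hOp_zero : hOp 0 = 0 := rfl

theorem hOp_pos (l : ℕ) (p : PP) :
    hOp ((l : ℤ) + 1) p = (((l : ℚ) + 1) / 6) • pderiv l p := by
  have h : ((l : ℤ) + 1) = .ofNat (l + 1) := by simp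
  rw [h]
  rfl

/-- The derivation `X_i ↦ (i+1) X_(i+1)`. -/
noncomputable def DD : Derivation ℚ PP PP :=
  MvPolynomial.mkDerivation ℚ (fun i : ℕ => C ((i : ℚ) + 1) * X (i + 1))

/-- The derivation `X_i ↦ (i+1) X_i`. -/
noncomputable def NN : Derivation ℚ PP PP :=
  MvPolynomial.mkDerivation ℚ (fun i : ℕ => C ((i : ℚ) + 1) * X i)

lemma tri (n : ℤ) : (∃ l : ℕ, n = -(l : ℤ) - 1) ∨ n = 0 ∨ ∃ l : ℕ, n = (l : ℤ) + 1 := by
  rcases lt_trichotomy n 0 with h | h | h
  · exact Or.inl ⟨(-n - 1).toNat, by omega⟩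
  · exact Or.inr (Or.inl h)
  · exact Or.inr (Or.inr ⟨(n - 1).toNat, by omega⟩)

lemma pd_comm (i j : ℕ) (p : PP) : pderiv i (pderiv j p) = pderiv j (pderiv i p) := by
  have h : ⁅(pderiv i : Derivation ℚ PP PP), (pderiv j : Derivation ℚ PP PP)⁆ = 0 := by
    apply MvPolynomial.derivation_ext
    intro k
    rw [Derivation.commutator_apply, pderiv_X, pderiv_X]
    simp only [Derivation.coe_zero, Pi.zero_apply]
    have e1 : ∀ a b c : ℕ, pderiv a ((Pi.single b (1 : PP) : ℕ → PP) c) = 0 := by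
      intro a b c
      by_cases hbc : c = b
      · subst hbc
        rw [Pi.single_eq_same]
        exact Derivation.map_one_eq_zero _
      · rw [Pi.single_eq_of_ne hbc, map_zero]
    rw [e1, e1, sub_zero]
  have h2 := congrArg (fun D : Derivation ℚ PP PP => D p) h
  simp only [Derivation.commutator_apply, Derivation.coe_zero, Pi.zero_apply] at h2
  exact sub_eq_zero.1 h2

lemma pd_mul (l l' : ℕ) (p : PP) :
    pderiv l (X l' * p) = X l' * pderiv l p + (if l' = l then p else 0) := by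
  rw [Derivation.leibniz, pderiv_X, smul_eq_mul, smul_eq_mul]
  congr 1
  by_cases h : l' = l
  · subst h
    rw [Pi.single_eq_same, if_pos rfl, mul_one]
  · rw [Pi.single_eq_of_ne h, if_neg h, mul_zero]

/-- commutator of a creation and an annihilation operator -/
lemma np (l l' : ℕ) (p : PP) :
    hOp (-(l : ℤ) - 1) (hOp ((l' : ℤ) + 1) p) - hOp ((l' : ℤ) + 1) (hOp (-(l : ℤ) - 1) p) =
    (if l = l' then -(((l : ℚ) + 1) / 6) else 0) • p := by
  rw [hOp_pos, hOp_neg, hOp_neg, hOp_pos, pd_mul]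
  by_cases h : l = l'
  · subst h
    rw [if_pos rfl, if_pos rfl, smul_add, mul_smul_comm]
    module
  · rw [if_neg h, if_neg h, add_zero, mul_smul_comm, sub_self, zero_smul]

theorem hh (m n : ℤ) (p : PP) :
    hOp m (hOp n p) - hOp n (hOp m p) = (if m + n = 0 then (m : ℚ) / 6 else 0) • p := by
  rcases tri m with ⟨l, rfl⟩ | rfl | ⟨l, rfl⟩ <;> rcases tri n with ⟨l', rfl⟩ | rfl | ⟨l', rfl⟩
  · rw [hOp_neg, hOp_neg, hOp_neg, hOp_neg, if_neg (by omega), zero_smul,
      mul_left_comm, sub_self]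
  · rw [hOp_zero, if_neg (by omega), zero_smul]
    simp
  · rw [np]
    congr 1
    by_cases h : l = l'
    · subst h
      rw [if_pos rfl, if_pos (by ring)]
      push_cast
      ring
    · rw [if_neg h, if_neg (by omega)]
  · rw [hOp_zero, if_neg (by omega), zero_smul]
    simp
  · rw [sub_self, Int.cast_zero, zero_div, ite_self, zero_smul]
  · rw [hOp_zero, if_neg (by omega), zero_smul]
    simp
  · rw [← neg_sub, np, ← neg_smul]
    congr 1
    by_cases h : l' = l
    · subst h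
      rw [if_pos rfl, if_pos (by ring)]
      push_cast
      ring
    · rw [if_neg h, if_neg (by omega), neg_zero]
  · rw [hOp_zero, if_neg (by omega), zero_smul]
    simp
  · rw [hOp_pos, hOp_pos, hOp_pos, hOp_pos, if_neg (by omega), zero_smul, Derivation.map_smul,
      Derivation.map_smul, pd_comm l' l, smul_comm, sub_self]

lemma DD_X (i : ℕ) : DD (X i : PP) = C ((i : ℚ) + 1) * X (i + 1) := by
  unfold DD
  rw [MvPolynomial.mkDerivation_X]

lemma NN_X (i : ℕ) : NN (X i : PP) = C ((i : ℚ) + 1) * X i := by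
  unfold NN
  rw [MvPolynomial.mkDerivation_X]

/-- `[DD, d/dX_(j+1)] = -(j+1) d/dX_j` -/
lemma DD_pd (j : ℕ) (p : PP) :
    DD (pderiv (j + 1) p) - pderiv (j + 1) (DD p) = (-((j : ℚ) + 1)) • pderiv j p := by
  have h : ⁅(DD : Derivation ℚ PP PP), (pderiv (j + 1) : Derivation ℚ PP PP)⁆ =
      (-((j : ℚ) + 1)) • (pderiv j : Derivation ℚ PP PP) := by
    apply MvPolynomial.derivation_ext
    intro i
    rw [Derivation.commutator_apply, DD_X, Derivation.smul_apply, pderiv_X, pderiv_X]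
    have e1 : ∀ b c : ℕ, DD ((Pi.single b (1 : PP) : ℕ → PP) c) = 0 := by
      intro b c
      by_cases hbc : c = b
      · subst hbc
        rw [Pi.single_eq_same]
        exact Derivation.map_one_eq_zero _
      · rw [Pi.single_eq_of_ne hbc, map_zero]
    rw [e1, zero_sub, pderiv_C_mul, pderiv_X]
    by_cases hij : i = j
    · subst hij
      rw [Pi.single_eq_same, Pi.single_eq_same, mul_one, smul_eq_C_mul, mul_one, map_neg]
    · rw [Pi.single_eq_of_ne hij, Pi.single_eq_of_ne (by omega), smul_zero, mul_zero, neg_zero]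
  have h2 := congrArg (fun D : Derivation ℚ PP PP => D p) h
  simpa only [Derivation.commutator_apply, Derivation.smul_apply] using h2

lemma DD_pd0 (p : PP) : DD (pderiv 0 p) - pderiv 0 (DD p) = 0 := by
  have h : ⁅(DD : Derivation ℚ PP PP), (pderiv 0 : Derivation ℚ PP PP)⁆ = 0 := by
    apply MvPolynomial.derivation_ext
    intro i
    rw [Derivation.commutator_apply, DD_X, pderiv_X]
    have e1 : ∀ b c : ℕ, DD ((Pi.single b (1 : PP) : ℕ → PP) c) = 0 := by
      intro b c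
      by_cases hbc : c = b
      · subst hbc
        rw [Pi.single_eq_same]
        exact Derivation.map_one_eq_zero _
      · rw [Pi.single_eq_of_ne hbc, map_zero]
    rw [e1, zero_sub, pderiv_C_mul, pderiv_X, Pi.single_eq_of_ne (by omega), mul_zero, neg_zero]
    rfl
  have h2 := congrArg (fun D : Derivation ℚ PP PP => D p) h
  simpa only [Derivation.commutator_apply, Derivation.coe_zero, Pi.zero_apply] using h2

/-- the translation operator -/
noncomputable def TT : Module.End ℚ PP := DD.toLinearMap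

theorem TT_apply (p : PP) : TT p = DD p := rfl

theorem th (n : ℤ) (p : PP) :
    TT (hOp n p) - hOp n (TT p) = (-(n : ℚ)) • hOp (n - 1) p := by
  rw [TT_apply, TT_apply]
  rcases tri n with ⟨l, rfl⟩ | rfl | ⟨l, rfl⟩
  · have e : -(l : ℤ) - 1 - 1 = -((l + 1 : ℕ) : ℤ) - 1 := by push_cast; ring
    rw [hOp_neg, hOp_neg, e, hOp_neg]
    rw [Derivation.leibniz, DD_X, smul_eq_mul, smul_eq_mul]
    push_cast
    simp only [smul_eq_C_mul, map_add, map_sub, map_neg, map_one]
    ring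
  · rw [hOp_zero, Int.cast_zero, neg_zero, zero_smul]
    simp
  · rw [hOp_pos, hOp_pos, Derivation.map_smul]
    rcases l with _ | j
    · have e : ((0 : ℕ) : ℤ) + 1 - 1 = 0 := by norm_num
      rw [e, hOp_zero]
      have h := DD_pd0 p
      rw [← smul_sub, h]
      simp
    · have e : ((j + 1 : ℕ) : ℤ) + 1 - 1 = (j : ℤ) + 1 := by push_cast; ring
      rw [e, hOp_pos]
      have h := DD_pd j p
      rw [← smul_sub, h, smul_smul, smul_smul]
      congr 1
      push_cast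
      ring

lemma pd_zero_of_large (p : PP) : ∃ N : ℕ, ∀ l, N ≤ l → pderiv l p = 0 := by
  refine ⟨(p.vars.sup id) + 1, fun l hl => ?_⟩
  apply MvPolynomial.pderiv_eq_zero_of_notMem_vars
  intro h
  have := Finset.le_sup (f := id) h
  simp only [id] at this
  omega

theorem hOp_trunc (p : PP) : ∃ N : ℕ, ∀ n : ℤ, (N : ℤ) ≤ n → hOp n p = 0 := by
  obtain ⟨N, hN⟩ := pd_zero_of_large p
  refine ⟨N + 1, fun n hn => ?_⟩
  obtain ⟨l, rfl⟩ : ∃ l : ℕ, n = (l : ℤ) + 1 := ⟨(n - 1).toNat, by omega⟩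
  rw [hOp_pos, hN l (by omega), smul_zero]

theorem hOp_FL : hOp ∈ FL PP := by
  intro v
  obtain ⟨N, hN⟩ := hOp_trunc v
  exact ⟨N, hN⟩

theorem hOp_one (n : ℤ) (hn : 0 ≤ n) : hOp n (1 : PP) = 0 := by
  rcases tri n with ⟨l, rfl⟩ | rfl | ⟨l, rfl⟩
  · omega
  · rw [hOp_zero]; rfl
  · rw [hOp_pos, Derivation.map_one_eq_zero, smul_zero]

theorem bc_two_large (i : ℕ) (hi : 3 ≤ i) : bc 2 i = 0 := by
  unfold bc
  have h : Ring.choose (2 : ℤ) i = ((Nat.choose 2 i : ℕ) : ℤ) := by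
    have := Ring.choose_natCast (R := ℤ) 2 i
    exact_mod_cast this
  rw [h, Nat.choose_eq_zero_of_lt (by omega)]
  simp

theorem bc_two_0 : bc 2 0 = 1 := by simp [bc]

theorem bc_two_1 : bc 2 1 = 2 := by simp [bc]

theorem bc_two_2 : bc 2 2 = 1 := by
  unfold bc
  have h : Ring.choose (2 : ℤ) 2 = ((Nat.choose 2 2 : ℕ) : ℤ) := by
    have := Ring.choose_natCast (R := ℤ) 2 2
    exact_mod_cast this
  rw [h]
  simp

theorem hOp_loc : Loc hOp hOp := by
  refine ⟨2, fun p q v => ?_⟩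
  unfold RR
  have hL : ∑ᶠ i : ℕ, trm hOp hOp ((2 : ℕ) : ℤ) p q v i =
      ∑ i ∈ Finset.range 3, trm hOp hOp ((2 : ℕ) : ℤ) p q v i := by
    apply finsum_eq_sum_of_support_subset
    intro i hi
    rw [Finset.coe_range, Set.mem_Iio]
    by_contra hcon
    push Not at hcon
    apply hi
    unfold trm
    have : bc ((2 : ℕ) : ℤ) i = 0 := bc_two_large i hcon
    rw [this, mul_zero, zero_smul]
  rw [hL, Finset.sum_range_succ, Finset.sum_range_succ, Finset.sum_range_succ,
    Finset.sum_range_zero]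
  unfold trm
  have e0 : bc ((2 : ℕ) : ℤ) 0 = 1 := bc_two_0
  have e1 : bc ((2 : ℕ) : ℤ) 1 = 2 := bc_two_1
  have e2 : bc ((2 : ℕ) : ℤ) 2 = 1 := bc_two_2
  rw [e0, e1, e2]
  have s0 : p + ((2 : ℕ) : ℤ) - ((0 : ℕ) : ℤ) = p + 2 := by push_cast; ring
  have s1 : p + ((2 : ℕ) : ℤ) - ((1 : ℕ) : ℤ) = p + 1 := by push_cast; ring
  have s2 : p + ((2 : ℕ) : ℤ) - ((2 : ℕ) : ℤ) = p := by push_cast; ring
  have t0 : q + ((2 : ℕ) : ℤ) - ((0 : ℕ) : ℤ) = q + 2 := by push_cast; ring
  have t1 : q + ((2 : ℕ) : ℤ) - ((1 : ℕ) : ℤ) = q + 1 := by push_cast; ring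
  have t2 : q + ((2 : ℕ) : ℤ) - ((2 : ℕ) : ℤ) = q := by push_cast; ring
  have u0 : p + ((0 : ℕ) : ℤ) = p := by simp
  have u1 : p + ((1 : ℕ) : ℤ) = p + 1 := by simp
  have u2 : p + ((2 : ℕ) : ℤ) = p + 2 := by simp
  have v0 : q + ((0 : ℕ) : ℤ) = q := by simp
  have v1 : q + ((1 : ℕ) : ℤ) = q + 1 := by simp
  have v2 : q + ((2 : ℕ) : ℤ) = q + 2 := by simp
  rw [s0, s1, s2, t0, t1, t2, u0, u1, v0, v1, u2, v2]
  have w1 : (-1 : ℚ) ^ (((2 : ℕ) : ℤ)) = 1 := by norm_num
  rw [w1]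
  have h1 := hh (p + 2) q v
  have h2 := hh (p + 1) (q + 1) v
  have h3 := hh p (q + 2) v
  have c1 : (p + 2 + q = 0) ↔ (p + (q + 2) = 0) := by constructor <;> intro h <;> omega
  have c2 : (p + 1 + (q + 1) = 0) ↔ (p + (q + 2) = 0) := by constructor <;> intro h <;> omega
  simp only [c1, c2] at h1 h2 h3
  have key : hOp (p + 2) (hOp q v) - hOp q (hOp (p + 2) v) -
      (2 : ℚ) • (hOp (p + 1) (hOp (q + 1) v) - hOp (q + 1) (hOp (p + 1) v)) +
      (hOp p (hOp (q + 2) v) - hOp (q + 2) (hOp p v)) = 0 := by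
    rw [h1, h2, h3, smul_smul, ← sub_smul, ← add_smul]
    have : ((if p + (q + 2) = 0 then ((p + 2 : ℤ) : ℚ) / 6 else 0) -
        2 * (if p + (q + 2) = 0 then ((p + 1 : ℤ) : ℚ) / 6 else 0) +
        (if p + (q + 2) = 0 then ((p : ℤ) : ℚ) / 6 else 0)) = 0 := by
      split_ifs
      · push_cast; ring
      · ring
    rw [this, zero_smul]
  refine Eq.trans ?_ key
  rw [zero_add]
  module

theorem TT_one : TT (1 : PP) = 0 := Derivation.map_one_eq_zero _

theorem hOp_gen (S : Submodule ℚ PP) (h1 : (1 : PP) ∈ S)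
    (h2 : ∀ (l : ℕ) (v : PP), v ∈ S → X l * v ∈ S) : S = ⊤ := by
  rw [eq_top_iff]
  rintro p -
  induction p using MvPolynomial.induction_on with
  | C a =>
    have : (C a : PP) = a • 1 := by rw [MvPolynomial.smul_eq_C_mul, mul_one]
    rw [this]
    exact S.smul_mem _ h1
  | add p q hp hq => exact S.add_mem hp hq
  | mul_X p i hp =>
    rw [mul_comm]
    exact h2 i _ hp

/-- the vertex algebra generated by the Heisenberg field -/
theorem exists_va : ∃ A : VertexAlgebra PP, A.one = 1 ∧ A.Y (X 0) = hOp ∧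
    ∀ (x : PP) (n : ℤ), A.Y (TT x) n = (-(n : ℚ)) • A.Y x (n - 1) := by
  obtain ⟨A, h1, h2, h3⟩ := rec_main PP TT 1 {hOp} TT_one
    (by
      rintro a rfl
      exact ⟨hOp_FL, th, hOp_one⟩)
    (by
      rintro a rfl b rfl
      exact hOp_loc)
    (by
      intro S hS h
      apply hOp_gen S hS
      intro l v hv
      have := h hOp rfl (-(l : ℤ) - 1) v hv
      rwa [hOp_neg] at this)
  refine ⟨A, h1, ?_, h3⟩
  have h4 := h2 hOp rfl
  have h5 : hOp (-1) (1 : PP) = X 0 := by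
    have := hOp_neg 0 1
    simpa using this
  rw [h5] at h4
  exact h4

end Pool.Agent.Q19.VOQ
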