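import Pool.Agent.Q19.VOQ.Frm

/-!
The form on the Heisenberg vertex operator algebra is invariant.
-/

set_option autoImplicit false

namespace Pool.Agent.Q19.VOQ

open MvPolynomial

theorem fs_eq {M : Type} [AddCommMonoid M] (f : ℕ → M) (N : ℕ) (h : ∀ i, N ≤ i → f i = 0) :
    ∑ᶠ i, f i = ∑ i ∈ Finset.range N, f i := by
  apply finsum_eq_sum_of_support_subset
  intro i hi
  rw [Finset.coe_range, Set.mem_Iio]
  by_contra hc
  exact hi (h i (by omega))

theorem neg_wt (m : ℤ) (hm : m < 0) (v : PP) (hv : NN v = (m : ℚ) • v) : v = 0 := by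
  have h := ker_eq bas NN.toLinearMap (fun s => ((wS s : ℕ) : ℤ)) NN_bas m
  have h2 : {i | ((wS i : ℕ) : ℤ) = m} = ∅ := by
    ext i
    simp only [Set.mem_ofPred_eq, Set.mem_empty_iff_false, iff_false]
    omega
  rw [h2, Set.image_empty, Submodule.span_empty] at h
  have h3 : v ∈ LinearMap.ker (NN.toLinearMap - (m : ℚ) • (LinearMap.id : PP →ₗ[ℚ] PP)) := by
    rw [LinearMap.mem_ker]
    show NN v - (m : ℚ) • v = 0
    rw [hv, sub_self]
  rw [h] at h3
  exact h3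

/-- `L(1)` -/
noncomputable abbrev LL : Module.End ℚ PP := MM.toLinearMap

theorem LL_apply (v : PP) : LL v = MM v := rfl

section

variable {A : VOA PP} (hA : Good A.toVertexAlgebra) (ho : A.omega = om)

include hA ho

theorem mem_wt_iff (k : ℤ) (v : PP) : v ∈ A.wt k ↔ NN v = (k : ℚ) • v := by
  unfold VOA.wt
  rw [LinearMap.mem_ker, LinearMap.sub_apply, sub_eq_zero, ho, om1 hA]
  rfl

theorem L1_eq : A.L1 = LL := by
  unfold VOA.L1
  rw [ho, om2 hA]

theorem NN_LL (v : PP) : NN (MM v) = MM (NN v) - MM v := by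
  have h := A.virasoro 0 1 v
  rw [ho] at h
  norm_num at h
  rw [om1 hA, om2 hA] at h
  have h2 : NN (MM v) - MM (NN v) = -MM v := h
  rw [sub_eq_iff_eq_add] at h2
  rw [h2]
  abel

theorem LL_DD (v : PP) : MM (DD v) = DD (MM v) + (2 : ℚ) • NN v := by
  have h := A.virasoro 1 (-1) v
  rw [ho] at h
  norm_num at h
  rw [om1 hA, om2 hA, om0 hA] at h
  have h2 : MM (DD v) - DD (MM v) = (2 : ℚ) • NN v := h
  rw [sub_eq_iff_eq_add] at h2
  rw [h2]
  abel

theorem wt_pow (k : ℤ) (a : PP) (ha : NN a = (k : ℚ) • a) (j : ℕ) :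
    NN ((LL ^ j) a) = ((k - j : ℤ) : ℚ) • (LL ^ j) a := by
  induction j with
  | zero => simpa using ha
  | succ j ih =>
    rw [pow_succ', Module.End.mul_apply, LL_apply, NN_LL hA ho, ih, Derivation.map_smul]
    push_cast
    module

theorem T_pow (k : ℤ) (a : PP) (ha : NN a = (k : ℚ) • a) (j : ℕ) :
    (LL ^ (j + 1)) (DD a) = DD ((LL ^ (j + 1)) a) +
      (((j : ℚ) + 1) * (2 * k - j)) • (LL ^ j) a := by
  induction j with
  | zero =>
    rw [zero_add, pow_one, pow_zero, LL_apply, LL_apply, LL_DD hA ho, ha]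
    simp
    module
  | succ j ih =>
    have h1 : (LL ^ (j + 1 + 1)) (DD a) = MM ((LL ^ (j + 1)) (DD a)) := by
      rw [pow_succ', Module.End.mul_apply, LL_apply]
    have h2 : (LL ^ (j + 1 + 1)) a = MM ((LL ^ (j + 1)) a) := by
      rw [pow_succ', Module.End.mul_apply, LL_apply]
    have h3 : (LL ^ (j + 1)) a = MM ((LL ^ j) a) := by
      rw [pow_succ', Module.End.mul_apply, LL_apply]
    rw [h1, ih, map_add, LL_DD hA ho, wt_pow hA ho k a ha, h2, Derivation.map_smul, ← h3]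
    push_cast
    module

omit hA ho in
theorem X0_pow (a : PP) (j : ℕ) : (LL ^ j) (X 0 * a) = X 0 * (LL ^ j) a := by
  induction j with
  | zero => simp
  | succ j ih =>
    rw [pow_succ', Module.End.mul_apply, ih, Module.End.mul_apply, LL_apply, LL_apply,
      Derivation.leibniz, MM_X, if_pos rfl, smul_zero, add_zero, smul_eq_mul]

theorem LL_nil (k : ℤ) (a : PP) (ha : NN a = (k : ℚ) • a) (j : ℕ) (hj : k < j) :
    (LL ^ j) a = 0 :=
  neg_wt (k - j) (by omega) _ (wt_pow hA ho k a ha j)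

end

/-- the formula for the adjoint -/
noncomputable def ad (A : VOA PP) (k : ℤ) (a : PP) (n : ℤ) (c : PP) : PP :=
  ∑ᶠ j : ℕ, ((-1 : ℚ) ^ k / (j.factorial : ℚ)) • A.Y ((LL ^ j) a) (2 * k - n - j - 2) c

theorem ad_eq (A : VOA PP) (k : ℤ) (a : PP) (n : ℤ) (c : PP) (K : ℕ)
    (h : ∀ j : ℕ, K ≤ j → (LL ^ j) a = 0) :
    ad A k a n c = ∑ j ∈ Finset.range K,
      ((-1 : ℚ) ^ k / (j.factorial : ℚ)) • A.Y ((LL ^ j) a) (2 * k - n - j - 2) c := by
  unfold ad
  apply fs_eq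
  intro i hi
  rw [h i hi, map_zero, Pi.zero_apply, LinearMap.zero_apply, smul_zero]

/-- `a` has weight `k` and the adjoint of `a_n` is given by the formula -/
def Inv (A : VOA PP) (k : ℤ) (a : PP) : Prop :=
  NN a = (k : ℚ) • a ∧ ∀ (n : ℤ) (b c : PP), frm (A.Y a n b) c = frm b (ad A k a n c)

section

variable {A : VOA PP} (hA : Good A.toVertexAlgebra) (ho : A.omega = om)

include hA ho

theorem inv_one : Inv A 0 1 := by
  have h0 : NN (1 : PP) = ((0 : ℤ) : ℚ) • 1 := by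
    rw [Int.cast_zero, zero_smul]
    exact Derivation.map_one_eq_zero _
  refine ⟨h0, fun n b c => ?_⟩
  rw [ad_eq A 0 1 n c 1 (fun j hj => LL_nil hA ho 0 1 h0 j (by omega))]
  rw [Finset.sum_range_one, ← hA.one, pow_zero, Module.End.one_apply, A.one_left, A.one_left]
  by_cases hn : n = -1
  · rw [if_pos hn, if_pos (by rw [hn]; norm_num)]
    simp
  · rw [if_neg hn, if_neg (by push_cast; omega)]
    simp

theorem inv_smul (k : ℤ) (a : PP) (x : ℚ) (ha : Inv A k a) : Inv A k (x • a) := by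
  have h0 : NN (x • a) = (k : ℚ) • (x • a) := by
    rw [Derivation.map_smul, ha.1, smul_comm]
  refine ⟨h0, fun n b c => ?_⟩
  have e : ad A k (x • a) n c = x • ad A k a n c := by
    rw [ad_eq A k _ n c (k.toNat + 1) (fun j hj => LL_nil hA ho k _ h0 j (by omega)),
      ad_eq A k _ n c (k.toNat + 1) (fun j hj => LL_nil hA ho k _ ha.1 j (by omega)),
      Finset.smul_sum]
    refine Finset.sum_congr rfl fun j _ => ?_
    rw [map_smul, map_smul, Pi.smul_apply, LinearMap.smul_apply, smul_comm]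
  rw [e, map_smul, map_smul, Pi.smul_apply, LinearMap.smul_apply, map_smul,
    LinearMap.smul_apply, ha.2]

theorem inv_add (k : ℤ) (a a' : PP) (ha : Inv A k a) (ha' : Inv A k a') : Inv A k (a + a') := by
  have h0 : NN (a + a') = (k : ℚ) • (a + a') := by
    rw [map_add, ha.1, ha'.1, smul_add]
  refine ⟨h0, fun n b c => ?_⟩
  have e : ad A k (a + a') n c = ad A k a n c + ad A k a' n c := by
    rw [ad_eq A k _ n c (k.toNat + 1) (fun j hj => LL_nil hA ho k _ h0 j (by omega)),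
      ad_eq A k _ n c (k.toNat + 1) (fun j hj => LL_nil hA ho k _ ha.1 j (by omega)),
      ad_eq A k _ n c (k.toNat + 1) (fun j hj => LL_nil hA ho k _ ha'.1 j (by omega)),
      ← Finset.sum_add_distrib]
    refine Finset.sum_congr rfl fun j _ => ?_
    rw [map_add, map_add, Pi.add_apply, LinearMap.add_apply, smul_add]
  rw [e, map_add, map_add, Pi.add_apply, LinearMap.add_apply, map_add,
    LinearMap.add_apply, ha.2, ha'.2]

theorem NN_DD (k : ℤ) (a : PP) (ha : NN a = (k : ℚ) • a) :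
    NN (DD a) = ((k + 1 : ℤ) : ℚ) • DD a := by
  have h := A.virasoro 0 (-1) a
  rw [ho] at h
  norm_num at h
  rw [om1 hA, om0 hA] at h
  have h2 : NN (DD a) - DD (NN a) = DD a := h
  rw [ha, Derivation.map_smul, sub_eq_iff_eq_add] at h2
  rw [h2]
  push_cast
  module

theorem ad_T (k : ℤ) (a : PP) (ha : NN a = (k : ℚ) • a) (n : ℤ) (c : PP) :
    ad A (k + 1) (DD a) n c = (-(n : ℚ)) • ad A k a (n - 1) c := by
  have h1 := NN_DD hA ho k a ha
  rw [ad_eq A (k + 1) (DD a) n c (k.toNat + 2 + 1)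
      (fun j hj => LL_nil hA ho (k + 1) _ h1 j (by omega)),
    ad_eq A k a (n - 1) c (k.toNat + 2 + 1)
      (fun j hj => LL_nil hA ho k _ ha j (by omega)), Finset.sum_range_succ', Finset.smul_sum]
  have h2 : ∀ j : ℕ, ((-1 : ℚ) ^ (k + 1) / ((j + 1).factorial : ℚ)) •
      A.Y ((LL ^ (j + 1)) (DD a)) (2 * (k + 1) - n - ((j + 1 : ℕ) : ℤ) - 2) c =
      ((-1 : ℚ) ^ (k + 1) / ((j + 1).factorial : ℚ)) • ((-(((2 * k - n - (j + 1) : ℤ)) : ℚ)) •
        A.Y ((LL ^ (j + 1)) a) (2 * k - n - j - 2) c) +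
      ((-1 : ℚ) ^ (k + 1) / (j.factorial : ℚ)) • ((2 * (k : ℚ) - j) •
        A.Y ((LL ^ j) a) (2 * k - n - j - 1) c) := by
    intro j
    rw [T_pow hA ho k a ha j, map_add, Pi.add_apply, LinearMap.add_apply, smul_add]
    congr 1
    · have := hA.T ((LL ^ (j + 1)) a) (2 * (k + 1) - n - ((j + 1 : ℕ) : ℤ) - 2)
      rw [TT_apply] at this
      rw [this, LinearMap.smul_apply]
      have e1 : (2 * (k + 1) - n - ((j + 1 : ℕ) : ℤ) - 2) = 2 * k - n - (j + 1) := by
        push_cast; ring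
      rw [e1]
      have e2 : 2 * k - n - (↑j + 1) - 1 = 2 * k - n - j - 2 := by ring
      rw [e2]
    · rw [map_smul, Pi.smul_apply, LinearMap.smul_apply, smul_smul, smul_smul]
      have e1 : (2 * (k + 1) - n - ((j + 1 : ℕ) : ℤ) - 2) = 2 * k - n - j - 1 := by
        push_cast; ring
      rw [e1]
      congr 1
      rw [Nat.factorial_succ]
      have : (j.factorial : ℚ) ≠ 0 := Nat.cast_ne_zero.2 (Nat.factorial_ne_zero _)
      have h' : ((j : ℚ) + 1) ≠ 0 := by positivity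
      push_cast
      field_simp
  simp only [h2]
  rw [Finset.sum_add_distrib]
  have h0 : ((-1 : ℚ) ^ (k + 1) / ((Nat.factorial 0 : ℕ) : ℚ)) •
      A.Y ((LL ^ 0) (DD a)) (2 * (k + 1) - n - ((0 : ℕ) : ℤ) - 2) c =
      ((-1 : ℚ) ^ (k + 1) / ((Nat.factorial 0 : ℕ) : ℚ)) • ((-(((2 * k - n - (0 : ℕ) : ℤ)) : ℚ)) •
        A.Y ((LL ^ 0) a) (2 * k - n - (0 : ℕ) - 1) c) := by
    have := hA.T a (2 * (k + 1) - n - ((0 : ℕ) : ℤ) - 2)
    rw [TT_apply] at this
    rw [pow_zero, Module.End.one_apply, Module.End.one_apply, this, LinearMap.smul_apply]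
    have e1 : (2 * (k + 1) - n - ((0 : ℕ) : ℤ) - 2) = 2 * k - n - ((0 : ℕ) : ℤ) := by
      push_cast; ring
    rw [e1]
  rw [h0]
  have h3 : ∀ j : ℕ, ((-1 : ℚ) ^ (k + 1) / ((j + 1).factorial : ℚ)) •
        ((-(((2 * k - n - (j + 1) : ℤ)) : ℚ)) • A.Y ((LL ^ (j + 1)) a) (2 * k - n - j - 2) c) =
      ((-1 : ℚ) ^ (k + 1) / ((j + 1).factorial : ℚ)) •
        ((-(((2 * k - n - (j + 1 : ℕ) : ℤ)) : ℚ)) •
        A.Y ((LL ^ (j + 1)) a) (2 * k - n - ((j + 1 : ℕ) : ℤ) - 1) c) := by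
    intro j
    have e2 : 2 * k - n - ((j + 1 : ℕ) : ℤ) - 1 = 2 * k - n - j - 2 := by push_cast; ring
    rw [e2]
    push_cast
    rfl
  simp only [h3]
  rw [add_right_comm, ← Finset.sum_range_succ' (fun j : ℕ => ((-1 : ℚ) ^ (k + 1) /
    (j.factorial : ℚ)) • ((-(((2 * k - n - (j : ℕ) : ℤ)) : ℚ)) •
        A.Y ((LL ^ j) a) (2 * k - n - (j : ℤ) - 1) c))]
  have h4 : ∑ j ∈ Finset.range (k.toNat + 2), ((-1 : ℚ) ^ (k + 1) / (j.factorial : ℚ)) •
      ((2 * (k : ℚ) - j) • A.Y ((LL ^ j) a) (2 * k - n - j - 1) c) =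
      ∑ j ∈ Finset.range (k.toNat + 2 + 1), ((-1 : ℚ) ^ (k + 1) / (j.factorial : ℚ)) •
      ((2 * (k : ℚ) - j) • A.Y ((LL ^ j) a) (2 * k - n - j - 1) c) := by
    rw [Finset.sum_range_succ _ (k.toNat + 2), LL_nil hA ho k a ha (k.toNat + 2) (by omega)]
    simp
  rw [h4, ← Finset.sum_add_distrib]
  refine Finset.sum_congr rfl fun j _ => ?_
  have e3 : 2 * k - (n - 1) - (j : ℤ) - 2 = 2 * k - n - j - 1 := by ring
  rw [e3, ← smul_add, ← add_smul, smul_smul, smul_smul]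
  congr 1
  rw [zpow_add₀ (by norm_num)]
  push_cast
  ring

theorem inv_T (k : ℤ) (a : PP) (ha : Inv A k a) : Inv A (k + 1) (DD a) := by
  refine ⟨NN_DD hA ho k a ha.1, fun n b c => ?_⟩
  have h := hA.T a n
  rw [TT_apply] at h
  rw [h, LinearMap.smul_apply, map_smul, LinearMap.smul_apply, ha.2, ad_T hA ho k a ha.1,
    map_smul]

end

end Pool.Agent.Q19.VOQ
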