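import Pool.Agent.Q19.VOQ.Inv

/-!
The form on the Heisenberg vertex operator algebra is invariant: second part.
-/

set_option autoImplicit false

namespace Pool.Agent.Q19.VOQ

open MvPolynomial

theorem h_one_apply (p : PP) : hOp (-1) p = X 0 * p := by
  have := hOp_neg 0 p
  simpa using this

theorem bc_neg_one (i : ℕ) : bc (-1) i = (-1 : ℚ) ^ i := by
  induction i with
  | zero => simp [bc]
  | succ i ih =>
    have h := Fin.bc_succ (-1) i
    rw [show (-1 : ℤ) + 1 = 0 by norm_num, bc_zero_left (i + 1) (by omega), ih] at h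
    rw [pow_succ]
    linarith

theorem iterX {A : VOA PP} (hA : Good A.toVertexAlgebra) (a : PP) (n : ℤ) (b : PP) (N : ℕ)
    (h1 : ∀ i : ℕ, N ≤ i → A.Y a (n + i) b = 0) (h2 : ∀ i : ℕ, N ≤ i → hOp i b = 0) :
    A.Y (X 0 * a) n b = ∑ i ∈ Finset.range N,
      (hOp (-1 - i) (A.Y a (n + i) b) + A.Y a (n - 1 - i) (hOp i b)) := by
  have h := iter_formula A.toVertexAlgebra (X 0) a b n (-1)
  rw [hA.h, h_one_apply] at h
  rw [h, fs_eq _ N]
  · refine Finset.sum_congr rfl fun i _ => ?_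
    rw [bc_neg_one, ← mul_pow]
    have e1 : (-1 : ℚ) ^ (-1 : ℤ) = -1 := by norm_num
    have e2 : n + -1 - (i : ℤ) = n - 1 - i := by ring
    rw [e1, e2]
    norm_num
  · intro i hi
    rw [h1 i hi, h2 i hi]
    simp

theorem tr_all (A : VOA PP) (a c : PP) (K : ℕ) :
    ∃ N : ℕ, ∀ j : ℕ, j < K → ∀ m : ℤ, (N : ℤ) ≤ m → A.Y ((LL ^ j) a) m c = 0 := by
  have h : ∀ j : ℕ, ∃ N : ℤ, ∀ m, N ≤ m → A.Y ((LL ^ j) a) m c = 0 := fun j => A.trunc _ _
  choose M hM using h
  refine ⟨∑ j ∈ Finset.range K, (M j).toNat, fun j hj m hm => hM j m ?_⟩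
  have h1 : (M j).toNat ≤ ∑ j ∈ Finset.range K, (M j).toNat :=
    Finset.single_le_sum (f := fun j => (M j).toNat) (fun _ _ => Nat.zero_le _)
      (Finset.mem_range.2 hj)
  omega

theorem ad_zero (A : VOA PP) (k : ℤ) (a : PP) (n : ℤ) : ad A k a n 0 = 0 := by
  unfold ad
  simp

section

variable {A : VOA PP} (hA : Good A.toVertexAlgebra) (ho : A.omega = om)

include hA ho

theorem NN_X0 (k : ℤ) (a : PP) (ha : NN a = (k : ℚ) • a) :
    NN (X 0 * a) = ((k + 1 : ℤ) : ℚ) • (X 0 * a) := by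
  rw [Derivation.leibniz, NN_X, ha, smul_eq_mul, smul_eq_mul, MvPolynomial.smul_eq_C_mul,
    MvPolynomial.smul_eq_C_mul]
  push_cast
  simp only [map_add, C_1, map_zero]
  ring

theorem inv_h (k : ℤ) (a : PP) (ha : Inv A k a) : Inv A (k + 1) (X 0 * a) := by
  have h0 := NN_X0 hA ho k a ha.1
  refine ⟨h0, fun n b c => ?_⟩
  set K : ℕ := k.toNat + 2 with hK
  have hnil : ∀ j : ℕ, K ≤ j → (LL ^ j) a = 0 := fun j hj => LL_nil hA ho k a ha.1 j (by omega)
  have hnil' : ∀ j : ℕ, K ≤ j → (LL ^ j) (X 0 * a) = 0 :=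
    fun j hj => LL_nil hA ho (k + 1) _ h0 j (by omega)
  obtain ⟨N1, hN1⟩ := A.trunc a b
  obtain ⟨N2, hN2⟩ := tr_all A a c K
  obtain ⟨N3, hN3⟩ := hOp_trunc b
  obtain ⟨N4, hN4⟩ := hOp_trunc c
  obtain ⟨N, hN⟩ : ∃ N : ℕ, N = N1.toNat + N2 + N3 + N4 + n.natAbs + 2 * k.natAbs + K + 5 :=
    ⟨_, rfl⟩
  -- left hand side
  have hl : A.Y (X 0 * a) n b = ∑ i ∈ Finset.range (N + 1),
      (hOp (-1 - i) (A.Y a (n + i) b) + A.Y a (n - 1 - i) (hOp i b)) := by
    apply iterX hA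
    · intro i hi
      exact hN1 _ (by omega)
    · intro i hi
      exact hN3 _ (by omega)
  have hr : ad A (k + 1) (X 0 * a) n c = - ∑ i ∈ Finset.range (N + 1),
      (hOp (-1 - i) (ad A k a (n - i - 2) c) + ad A k a (n + i - 1) (hOp i c)) := by
    rw [ad_eq A (k + 1) _ n c K hnil']
    have e1 : ∀ j ∈ Finset.range K, ((-1 : ℚ) ^ (k + 1) / (j.factorial : ℚ)) •
        A.Y ((LL ^ j) (X 0 * a)) (2 * (k + 1) - n - j - 2) c =
        ∑ i ∈ Finset.range (N + 1), (-1 : ℚ) • (((-1 : ℚ) ^ k / (j.factorial : ℚ)) •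
          (hOp (-1 - i) (A.Y ((LL ^ j) a) (2 * k - (n - i - 2) - j - 2) c) +
          A.Y ((LL ^ j) a) (2 * k - (n + i - 1) - j - 2) (hOp i c))) := by
      intro j hj
      rw [Finset.mem_range] at hj
      rw [X0_pow, iterX hA _ _ _ (N + 1), Finset.smul_sum]
      · refine Finset.sum_congr rfl fun i _ => ?_
        rw [smul_smul]
        congr 1
        · rw [zpow_add₀ (by norm_num)]
          simp
          ring
        · have e2 : 2 * (k + 1) - n - (j : ℤ) - 2 + i = 2 * k - (n - i - 2) - j - 2 := by ring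
          have e3 : 2 * (k + 1) - n - (j : ℤ) - 2 - 1 - i = 2 * k - (n + i - 1) - j - 2 := by
            ring
          rw [e2, e3]
      · intro i hi
        exact hN2 j hj _ (by omega)
      · intro i hi
        exact hN4 _ (by omega)
    rw [Finset.sum_congr rfl e1, Finset.sum_comm, ← Finset.sum_neg_distrib]
    refine Finset.sum_congr rfl fun i _ => ?_
    rw [ad_eq A k a (n - i - 2) c K hnil, ad_eq A k a (n + i - 1) (hOp i c) K hnil, map_sum,
      ← Finset.sum_add_distrib, ← Finset.sum_neg_distrib]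
    refine Finset.sum_congr rfl fun j _ => ?_
    rw [map_smul, smul_add, neg_smul, one_smul]
  have hz : ∀ i : ℕ, N ≤ i → ad A k a (n - i - 2) c = 0 := by
    intro i hi
    rw [ad_eq A k a _ c K hnil]
    apply Finset.sum_eq_zero
    intro j hj
    rw [Finset.mem_range] at hj
    rw [hN2 j hj _ (by omega), smul_zero]
  have s1 : ∑ i ∈ Finset.range (N + 1), hOp (-1 - i) (ad A k a (n - i - 2) c) =
      ∑ i ∈ Finset.range (N + 1), hOp (-i) (ad A k a (n - 1 - i) c) := by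
    rw [Finset.sum_range_succ, Finset.sum_range_succ', hz N le_rfl, map_zero, add_zero]
    have : hOp (-((0 : ℕ) : ℤ)) = 0 := by simp [hOp_zero]
    rw [this, LinearMap.zero_apply, add_zero]
    refine Finset.sum_congr rfl fun i _ => ?_
    have e1 : -((i + 1 : ℕ) : ℤ) = -1 - i := by push_cast; ring
    have e2 : n - 1 - ((i + 1 : ℕ) : ℤ) = n - i - 2 := by push_cast; ring
    rw [e1, e2]
  have s2 : ∑ i ∈ Finset.range (N + 1), ad A k a (n + i - 1) (hOp i c) =
      ∑ i ∈ Finset.range (N + 1), ad A k a (n + i) (hOp (1 + i) c) := by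
    rw [Finset.sum_range_succ', Finset.sum_range_succ _ N]
    have h5 : hOp (1 + (N : ℤ)) c = 0 := hN4 _ (by omega)
    have : hOp ((0 : ℕ) : ℤ) = 0 := by simp [hOp_zero]
    rw [this, LinearMap.zero_apply, h5, ad_zero, ad_zero, add_zero, add_zero]
    refine Finset.sum_congr rfl fun i _ => ?_
    have e1 : ((i + 1 : ℕ) : ℤ) = 1 + i := by push_cast; ring
    have e2 : n + ((i + 1 : ℕ) : ℤ) - 1 = n + i := by push_cast; ring
    rw [e2, e1]
  have hr2 : ad A (k + 1) (X 0 * a) n c = - ∑ i ∈ Finset.range (N + 1),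
      (hOp (-i) (ad A k a (n - 1 - i) c) + ad A k a (n + i) (hOp (1 + i) c)) := by
    rw [hr, Finset.sum_add_distrib, s1, s2, ← Finset.sum_add_distrib]
  rw [hl, hr2, map_sum, LinearMap.sum_apply, map_neg, map_sum, ← Finset.sum_neg_distrib]
  refine Finset.sum_congr rfl fun i _ => ?_
  rw [map_add, LinearMap.add_apply, map_add, frm_h, ha.2, ha.2, frm_h]
  have e1 : -(-1 - (i : ℤ)) = 1 + i := by ring
  rw [e1]
  ring

end

end Pool.Agent.Q19.VOQ
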