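import Pool.Agent.Q19.VOQ.Inw

/-!
The form on the Heisenberg vertex operator algebra is invariant: end.
-/

set_option autoImplicit false

namespace Pool.Agent.Q19.VOQ

open MvPolynomial

theorem wS_add (m n : ℕ →₀ ℕ) : wS (m + n) = wS m + wS n := by
  unfold wS
  rw [Finsupp.sum_add_index']
  · intro i; simp
  · intro i a b; ring

theorem wS_single (i k : ℕ) : wS (Finsupp.single i k) = k * (i + 1) := by
  unfold wS
  rw [Finsupp.sum_single_index]
  simp

/-- induction on monomials -/
theorem mono_ind {P : (ℕ →₀ ℕ) → Prop} (h0 : P 0)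
    (h1 : ∀ (l : ℕ) (s : ℕ →₀ ℕ), P s → P (s + Finsupp.single l 1)) (s : ℕ →₀ ℕ) : P s := by
  have key : ∀ (n : ℕ) (s : ℕ →₀ ℕ), s.degree = n → P s := by
    intro n
    induction n with
    | zero =>
      intro s hs
      rw [(Finsupp.degree_eq_zero_iff s).1 hs]
      exact h0
    | succ n ih =>
      intro s hs
      have h2 : s ≠ 0 := by
        intro h
        rw [h] at hs
        simp at hs
      obtain ⟨l, hl⟩ : ∃ l, s l ≠ 0 := by
        by_contra hc
        push Not at hc
        exact h2 (by ext i; rw [hc i]; rfl)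
      have h3 : s - Finsupp.single l 1 + Finsupp.single l 1 = s := by
        ext j
        by_cases hj : j = l
        · subst hj
          simp
          omega
        · simp [Finsupp.single_eq_of_ne hj]
      rw [← h3]
      apply h1
      apply ih
      rw [← h3, map_add, Finsupp.degree_single] at hs
      omega
  exact key _ s rfl

theorem X_mono (l : ℕ) (s : ℕ →₀ ℕ) :
    (monomial (s + Finsupp.single l 1) 1 : PP) = X l * monomial s 1 := by
  rw [X, monomial_mul, one_mul, add_comm]

section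

variable {A : VOA PP} (hA : Good A.toVertexAlgebra) (ho : A.omega = om)

include hA ho

theorem inv_X (l : ℕ) : ∀ (k : ℤ) (a : PP), Inv A k a → Inv A (k + l + 1) (X l * a) := by
  induction l with
  | zero =>
    intro k a ha
    have := inv_h hA ho k a ha
    simpa using this
  | succ l ih =>
    intro k a ha
    have h1 := inv_T hA ho _ _ (ih k a ha)
    have h2 := ih _ _ (inv_T hA ho k a ha)
    have e : X (l + 1) * a = (1 / ((l : ℚ) + 1)) • (DD (X l * a) + (-1 : ℚ) • (X l * DD a)) := by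
      rw [Derivation.leibniz, DD_X, smul_eq_mul, smul_eq_mul, neg_smul, one_smul,
        add_neg_cancel_comm, ← C_smul]
      have h3 : (C (1 / ((l : ℚ) + 1)) : PP) * C ((l : ℚ) + 1) = 1 := by
        rw [← C_mul]
        have : (l : ℚ) + 1 ≠ 0 := by positivity
        rw [one_div, inv_mul_cancel₀ this, C_1]
      linear_combination (-(X (l + 1) * a)) * h3
    rw [e]
    have e2 : k + ((l + 1 : ℕ) : ℤ) + 1 = k + l + 1 + 1 := by push_cast; ring
    rw [e2]
    apply inv_smul hA ho
    apply inv_add hA ho _ _ _ h1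
    apply inv_smul hA ho
    have e3 : k + l + 1 + 1 = k + 1 + l + 1 := by ring
    rw [e3]
    exact h2

theorem inv_mono (s : ℕ →₀ ℕ) : Inv A (wS s : ℕ) (monomial s 1) := by
  induction s using mono_ind with
  | h0 =>
    have : wS 0 = 0 := by simp [wS]
    rw [this]
    exact inv_one hA ho
  | h1 l s hs =>
    have h := inv_X hA ho l _ _ hs
    rw [X_mono, wS_add, wS_single]
    have e : (((wS s + 1 * (l + 1) : ℕ)) : ℤ) = (wS s : ℤ) + l + 1 := by push_cast; ring
    rw [e]
    exact h

theorem inv_all (k : ℤ) (a : PP) (ha : NN a = (k : ℚ) • a) : Inv A k a := by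
  have h1 : a ∈ LinearMap.ker (NN.toLinearMap - (k : ℚ) • (LinearMap.id : PP →ₗ[ℚ] PP)) := by
    rw [LinearMap.mem_ker]
    show NN a - (k : ℚ) • a = 0
    rw [ha, sub_self]
  rw [ker_eq bas NN.toLinearMap (fun s => ((wS s : ℕ) : ℤ)) NN_bas k] at h1
  induction h1 using Submodule.span_induction with
  | mem x hx =>
    obtain ⟨s, hs, rfl⟩ := hx
    have hs' : ((wS s : ℕ) : ℤ) = k := hs
    rw [bas_apply, ← hs']
    exact inv_mono hA ho s
  | zero =>
    have := inv_smul hA ho _ _ 0 (inv_mono hA ho 0)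
    refine ⟨by simp, fun n b c => ?_⟩
    unfold ad
    simp
  | add x y hx hy h1 h2 =>
    have h3 : ∀ z : PP, z ∈ Submodule.span ℚ (bas '' {i | ((wS i : ℕ) : ℤ) = k}) →
        NN z = (k : ℚ) • z := by
      intro z hz
      rw [← ker_eq bas NN.toLinearMap (fun s => ((wS s : ℕ) : ℤ)) NN_bas k] at hz
      exact sub_eq_zero.1 hz
    exact inv_add hA ho _ _ _ (h1 (h3 x hx)) (h2 (h3 y hy))
  | smul c x hx h1 =>
    have h3 : ∀ z : PP, z ∈ Submodule.span ℚ (bas '' {i | ((wS i : ℕ) : ℤ) = k}) →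
        NN z = (k : ℚ) • z := by
      intro z hz
      rw [← ker_eq bas NN.toLinearMap (fun s => ((wS s : ℕ) : ℤ)) NN_bas k] at hz
      exact sub_eq_zero.1 hz
    exact inv_smul hA ho _ _ _ (h1 (h3 x hx))

theorem invariant : A.IsInvariant frm := by
  intro k a ha n b c
  rw [mem_wt_iff hA ho] at ha
  have h := (inv_all hA ho k a ha).2 n b c
  rw [h, L1_eq hA ho]
  have hnil : ∀ j : ℕ, k.toNat + 2 ≤ j → (LL ^ j) a = 0 :=
    fun j hj => LL_nil hA ho k a ha j (by omega)
  rw [ad_eq A k a n c _ hnil, fs_eq _ (k.toNat + 2)]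
  · rw [map_sum]
    refine Finset.sum_congr rfl fun j _ => ?_
    rw [map_smul, smul_eq_mul]
  · intro j hj
    rw [hnil j hj]
    simp

theorem wt_neg (n : ℤ) (hn : n < 0) : A.wt n = ⊥ := by
  rw [eq_bot_iff]
  intro v hv
  rw [mem_wt_iff hA ho] at hv
  exact neg_wt n hn v hv

theorem wt_zero : A.wt 0 = Submodule.span ℚ {A.one} := by
  have h1 : A.wt 0 = LinearMap.ker
      (NN.toLinearMap - ((0 : ℤ) : ℚ) • (LinearMap.id : PP →ₗ[ℚ] PP)) := by
    unfold VOA.wt
    rw [ho, om1 hA]
  rw [h1, ker_eq bas NN.toLinearMap (fun s => ((wS s : ℕ) : ℤ)) NN_bas 0]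
  have h2 : {i : ℕ →₀ ℕ | ((wS i : ℕ) : ℤ) = 0} = {0} := by
    ext s
    simp only [Set.mem_ofPred_eq, Set.mem_singleton_iff]
    constructor
    · intro h
      ext i
      have h3 := wS_ge s i
      have h4 : wS s = 0 := by exact_mod_cast h
      rw [h4] at h3
      have h5 : s i * (i + 1) = 0 := Nat.le_zero.1 h3
      rcases Nat.mul_eq_zero.1 h5 with h6 | h6
      · rw [h6]; rfl
      · omega
    · rintro rfl
      simp [wS]
  rw [h2, Set.image_singleton, bas_apply, hA.one]
  rfl

end

end Pool.Agent.Q19.VOQ
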