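import Pool.Agent.Q19.VOQ.Inx

/-!
The integral form generated by `1`, `h_(-2) 1` and `6 h_(-1) 1`.
-/

set_option autoImplicit false

namespace Pool.Agent.Q19.VOQ

open MvPolynomial

/-- `gcd (l, 6)` -/
def gg (l : ℕ) : ℕ := Nat.gcd l 6

theorem gg_pos (l : ℕ) : 0 < gg l := Nat.gcd_pos_of_pos_right _ (by norm_num)

/-- the scaling factor of a monomial -/
def gS (s : ℕ →₀ ℕ) : ℕ := s.prod fun l k => gg l ^ k

theorem gS_zero : gS 0 = 1 := by simp [gS]

theorem gS_add (s : ℕ →₀ ℕ) (l : ℕ) : gS (s + Finsupp.single l 1) = gg l * gS s := by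
  unfold gS
  rw [Finsupp.prod_add_index']
  · rw [Finsupp.prod_single_index (by simp), pow_one, mul_comm]
  · intro i; simp
  · intro i a b; rw [pow_add]

theorem gS_ne (s : ℕ →₀ ℕ) : (gS s : ℚ) ≠ 0 := by
  unfold gS
  rw [Nat.cast_ne_zero, Finsupp.prod]
  exact Finset.prod_ne_zero_iff.2 fun i _ => pow_ne_zero _ (gg_pos i).ne'

/-- the basis of the integral form -/
noncomputable def eJ : Module.Basis (ℕ →₀ ℕ) ℚ PP :=
  bas.unitsSMul fun s => Units.mk0 (gS s : ℚ) (gS_ne s)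

theorem eJ_apply (s : ℕ →₀ ℕ) : eJ s = (gS s : ℚ) • monomial s 1 := by
  unfold eJ
  rw [Module.Basis.unitsSMul_apply, bas_apply]
  rfl

/-- the integral form -/
noncomputable def JJ : AddSubgroup PP := AddSubgroup.closure (Set.range eJ)

theorem eJ_mem (s : ℕ →₀ ℕ) : eJ s ∈ JJ := AddSubgroup.subset_closure ⟨s, rfl⟩

theorem one_eq : (1 : PP) = eJ 0 := by
  rw [eJ_apply, gS_zero]
  simp

theorem eJ_add (s : ℕ →₀ ℕ) (l : ℕ) :
    eJ (s + Finsupp.single l 1) = (gg l : ℚ) • (X l * eJ s) := by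
  rw [eJ_apply, eJ_apply, gS_add, X_mono, mul_smul_comm, smul_smul]
  push_cast
  rfl

/-- a linear map which maps the basis into `W` maps `JJ` into `W` -/
theorem map_mem {W : AddSubgroup PP} (D : Module.End ℚ PP) (h : ∀ s, D (eJ s) ∈ W) (p : PP)
    (hp : p ∈ JJ) : D p ∈ W := by
  induction hp using AddSubgroup.closure_induction with
  | mem x hx =>
    obtain ⟨s, rfl⟩ := hx
    exact h s
  | zero => rw [map_zero]; exact W.zero_mem
  | add x y _ _ hx hy => rw [map_add]; exact W.add_mem hx hy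
  | neg x _ hx => rw [map_neg]; exact W.neg_mem hx

theorem zsmul_mem' {W : AddSubgroup PP} (z : ℤ) (p : PP) (hp : p ∈ W) : (z : ℚ) • p ∈ W := by
  rw [Int.cast_smul_eq_zsmul]
  exact W.zsmul_mem hp z

theorem X_mem (z : ℤ) (l : ℕ) (h : (gg l : ℤ) ∣ z) (p : PP) (hp : p ∈ JJ) :
    (z : ℚ) • (X l * p) ∈ JJ := by
  have h2 := map_mem ((z : ℚ) • LinearMap.mulLeft ℚ (X l)) (W := JJ) ?_ p hp
  · exact h2
  · intro s
    show (z : ℚ) • (X l * eJ s) ∈ JJ
    obtain ⟨y, rfl⟩ := h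
    have : (((gg l : ℤ) * y : ℤ) : ℚ) • (X l * eJ s) = (y : ℚ) • eJ (s + Finsupp.single l 1) := by
      rw [eJ_add, smul_smul]
      congr 1
      push_cast
      ring
    rw [this]
    exact zsmul_mem' y _ (eJ_mem _)

theorem pd_eJ (l : ℕ) (s : ℕ →₀ ℕ) :
    pderiv l (eJ s) = ((s l * gg l : ℕ) : ℚ) • eJ (s - Finsupp.single l 1) := by
  rw [eJ_apply, Derivation.map_smul, pderiv_monomial]
  by_cases h0 : s l = 0
  · simp [h0]
  · have h3 : s - Finsupp.single l 1 + Finsupp.single l 1 = s := by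
      ext j
      by_cases hj : j = l
      · subst hj
        simp
        omega
      · simp [Finsupp.single_eq_of_ne hj]
    have h4 := gS_add (s - Finsupp.single l 1) l
    rw [h3] at h4
    rw [eJ_apply, h4, smul_smul, one_mul]
    have h5 : (monomial (s - Finsupp.single l 1) ((s l : ℕ) : ℚ) : PP) =
        ((s l : ℕ) : ℚ) • monomial (s - Finsupp.single l 1) 1 := by
      rw [smul_monomial, smul_eq_mul, mul_one]
    rw [h5, smul_smul]
    congr 1
    push_cast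
    ring

theorem pd_mem (c : ℚ) (l : ℕ) (z : ℤ) (h : c * (gg l : ℚ) = z) (p : PP) (hp : p ∈ JJ) :
    c • pderiv l p ∈ JJ := by
  have h2 := map_mem (c • (pderiv l).toLinearMap) (W := JJ) ?_ p hp
  · exact h2
  · intro s
    show c • pderiv l (eJ s) ∈ JJ
    rw [pd_eJ, smul_smul]
    have : c * ((s l * gg l : ℕ) : ℚ) = ((s l * z : ℤ) : ℚ) := by
      push_cast
      rw [← h]
      ring
    rw [this]
    exact zsmul_mem' _ _ (eJ_mem _)

theorem six_dvd (l : ℕ) : 6 ∣ gg l * ((l + 1) * (l + 2)) := by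
  have h : ∀ r < 6, 6 ∣ Nat.gcd r 6 * ((r + 1) * (r + 2)) := by decide
  have h1 : gg l = Nat.gcd (l % 6) 6 := by
    unfold gg
    rw [Nat.gcd_comm, Nat.gcd_rec, Nat.gcd_comm]
  rw [h1]
  have h2 := h (l % 6) (Nat.mod_lt _ (by norm_num))
  have h3 : (Nat.gcd (l % 6) 6 * ((l + 1) * (l + 2))) ≡
      (Nat.gcd (l % 6) 6 * ((l % 6 + 1) * (l % 6 + 2))) [MOD 6] := by
    have h4 : l ≡ l % 6 [MOD 6] := (Nat.mod_modEq l 6).symm
    exact Nat.ModEq.mul_left _ ((h4.add_right 1).mul (h4.add_right 2))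
  exact (Nat.modEq_zero_iff_dvd.1 (h3.trans (Nat.modEq_zero_iff_dvd.2 h2)))

section

variable {A : VOA PP} (hA : Good A.toVertexAlgebra) (ho : A.omega = om)

include hA

/-- the modes of `x = h_(-2) 1` -/
theorem Yx (k : ℤ) : A.Y (X 1) k = (-(k : ℚ)) • hOp (k - 1) := by
  have h := hA.T (X 0) k
  rw [TT_apply, DD_X, hA.h] at h
  simpa using h

/-- the modes of `y = 6 h_(-1) 1` -/
theorem Yy (k : ℤ) : A.Y ((6 : ℚ) • X 0) k = (6 : ℚ) • hOp k := by
  rw [map_smul, Pi.smul_apply, hA.h]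

theorem Yx_mem (k : ℤ) (p : PP) (hp : p ∈ JJ) : A.Y (X 1) k p ∈ JJ := by
  rw [Yx hA, LinearMap.smul_apply]
  rcases tri (k - 1) with ⟨l, hl⟩ | hl | ⟨l, hl⟩
  · rw [hl, hOp_neg]
    have e : (-(k : ℚ)) = ((l : ℤ) : ℚ) := by
      have : k = -(l : ℤ) := by omega
      rw [this]
      push_cast
      ring
    rw [e]
    exact X_mem _ _ (Int.natCast_dvd_natCast.2 (Nat.gcd_dvd_left _ _)) _ hp
  · rw [hl, hOp_zero]
    simp [JJ.zero_mem]
  · rw [hl, hOp_pos, smul_smul]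
    obtain ⟨z, hz⟩ := six_dvd l
    apply pd_mem _ _ (-(z : ℤ)) _ _ hp
    have e : (k : ℚ) = (l : ℚ) + 2 := by
      have : k = (l : ℤ) + 2 := by omega
      rw [this]
      push_cast
      ring
    rw [e]
    have hz' : (gg l : ℚ) * (((l : ℚ) + 1) * ((l : ℚ) + 2)) = 6 * z := by exact_mod_cast hz
    push_cast
    linear_combination (-1 / 6) * hz'

theorem Yy_mem (k : ℤ) (p : PP) (hp : p ∈ JJ) : A.Y ((6 : ℚ) • X 0) k p ∈ JJ := by
  rw [Yy hA, LinearMap.smul_apply]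
  rcases tri k with ⟨l, rfl⟩ | rfl | ⟨l, rfl⟩
  · rw [hOp_neg]
    have e : (6 : ℚ) = ((6 : ℤ) : ℚ) := by norm_num
    rw [e]
    exact X_mem _ _ (by
      have : gg l ∣ 6 := Nat.gcd_dvd_right _ _
      exact_mod_cast this) _ hp
  · rw [hOp_zero]
    simp [JJ.zero_mem]
  · rw [hOp_pos, smul_smul]
    apply pd_mem _ _ (((l + 1) * gg l : ℕ) : ℤ) _ _ hp
    push_cast
    ring

/-- `JJ` is the smallest subgroup which contains `1` and is stable under the modes of `x` and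
`y` -/
theorem JJ_le (W : AddSubgroup PP) (h1 : (1 : PP) ∈ W)
    (hx : ∀ (k : ℤ) (p : PP), p ∈ W → A.Y (X 1) k p ∈ W)
    (hy : ∀ (k : ℤ) (p : PP), p ∈ W → A.Y ((6 : ℚ) • X 0) k p ∈ W) : JJ ≤ W := by
  unfold JJ
  rw [AddSubgroup.closure_le]
  rintro _ ⟨s, rfl⟩
  show eJ s ∈ W
  induction s using mono_ind with
  | h0 => rw [← one_eq]; exact h1
  | h1 l s hs =>
    have a1 := hx (-(l : ℤ)) _ hs
    have a2 := hy (-(l : ℤ) - 1) _ hs
    rw [Yx hA, LinearMap.smul_apply, hOp_neg] at a1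
    rw [Yy hA, LinearMap.smul_apply, hOp_neg] at a2
    have hb : (gg l : ℤ) = l * Nat.gcdA l 6 + 6 * Nat.gcdB l 6 := Nat.gcd_eq_gcd_ab l 6
    have e : eJ (s + Finsupp.single l 1) =
        ((Nat.gcdA l 6 : ℤ) : ℚ) • ((-((-(l : ℤ) : ℤ) : ℚ)) • (X l * eJ s)) +
        ((Nat.gcdB l 6 : ℤ) : ℚ) • ((6 : ℚ) • (X l * eJ s)) := by
      rw [eJ_add, smul_smul, smul_smul, ← add_smul]
      congr 1
      have : (gg l : ℚ) = l * Nat.gcdA l 6 + 6 * Nat.gcdB l 6 := by exact_mod_cast hb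
      rw [this]
      push_cast
      ring
    rw [e]
    exact W.add_mem (zsmul_mem' _ _ a1) (zsmul_mem' _ _ a2)

/-- `JJ` is closed under all products -/
theorem JJ_closed (a : PP) (ha : a ∈ JJ) (b : PP) (hb : b ∈ JJ) (k : ℤ) : A.Y a k b ∈ JJ := by
  set W : AddSubgroup PP :=
    { carrier := {a | ∀ (k : ℤ) (v : PP), v ∈ JJ → A.Y a k v ∈ JJ}
      add_mem' := by
        intro a b ha hb k v hv
        rw [map_add, Pi.add_apply, LinearMap.add_apply]
        exact JJ.add_mem (ha k v hv) (hb k v hv)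
      zero_mem' := by
        intro k v hv
        rw [map_zero, Pi.zero_apply, LinearMap.zero_apply]
        exact JJ.zero_mem
      neg_mem' := by
        intro a ha k v hv
        rw [map_neg, Pi.neg_apply, LinearMap.neg_apply]
        exact JJ.neg_mem (ha k v hv) } with hW
  have hit : ∀ x : PP, (∀ (k : ℤ) (p : PP), p ∈ JJ → A.Y x k p ∈ JJ) →
      ∀ (k : ℤ) (p : PP), p ∈ W → A.Y x k p ∈ W := by
    intro x hx k p hp m v hv
    show A.Y (A.Y x k p) m v ∈ JJ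
    rw [iter_formula A.toVertexAlgebra x p v m k]
    apply finsum_induction (fun q => q ∈ JJ) JJ.zero_mem (fun q r hq hr => JJ.add_mem hq hr)
    intro i
    have e : (-1 : ℚ) ^ i * bc k i = (((-1 : ℤ) ^ i * Ring.choose k i : ℤ) : ℚ) := by
      unfold bc
      push_cast
      rfl
    rw [e]
    apply zsmul_mem'
    apply JJ.sub_mem
    · exact hx _ _ (hp _ _ hv)
    · obtain ⟨z, e2⟩ : ∃ z : ℤ, (-1 : ℚ) ^ k = z := by
        rcases Int.even_or_odd k with hk | hk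
        · exact ⟨1, by rw [hk.neg_one_zpow]; norm_num⟩
        · exact ⟨-1, by rw [hk.neg_one_zpow]; norm_num⟩
      rw [e2]
      apply zsmul_mem'
      exact hp _ _ (hx _ _ hv)
  have h1 : JJ ≤ W := by
    apply JJ_le hA
    · intro k v hv
      rw [← hA.one, A.one_left]
      split_ifs
      · exact hv
      · exact JJ.zero_mem
    · exact hit _ (Yx_mem hA)
    · exact hit _ (Yy_mem hA)
  exact h1 ha k b hb

theorem x_mem : (X 1 : PP) ∈ JJ := by
  have h := Yx_mem hA (-1) 1 (one_eq ▸ eJ_mem 0)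
  rw [← hA.one, A.one_right] at h
  exact h

theorem y_mem : ((6 : ℚ) • X 0 : PP) ∈ JJ := by
  have h := Yy_mem hA (-1) 1 (one_eq ▸ eJ_mem 0)
  rw [← hA.one, A.one_right] at h
  exact h

include ho

theorem JJ_form : A.IsIntegralForm JJ where
  span := ⟨ℕ →₀ ℕ, eJ, rfl⟩
  closed := fun a ha b hb k => JJ_closed hA a ha b hb k
  one := ⟨1, one_pos, by rw [one_smul, hA.one]; exact one_eq ▸ eJ_mem 0⟩
  omega := by
    refine ⟨12, by norm_num, ?_⟩
    have h := Yy_mem hA (-1) _ (y_mem hA)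
    rw [Yy hA, LinearMap.smul_apply, h_one_apply] at h
    have e : (12 : ℕ) • A.omega = (6 : ℚ) • (X 0 * (6 : ℚ) • X 0 : PP) := by
      rw [ho, om, C_smul, ← Nat.cast_smul_eq_nsmul ℚ, smul_smul, mul_smul_comm, smul_smul, pow_two]
      norm_num
    rw [e]
    exact h

theorem JJ_fg : A.FinGen JJ := by
  refine ⟨{1, X 1, (6 : ℚ) • X 0}, by simp, ?_, ?_⟩
  · rintro a (rfl | rfl | rfl)
    · exact one_eq ▸ eJ_mem 0
    · exact x_mem hA
    · exact y_mem hA
  · intro J' hJ' hS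
    apply JJ_le hA
    · exact hS (by simp)
    · intro k p hp
      exact hJ'.closed _ (hS (by simp)) _ hp k
    · intro k p hp
      exact hJ'.closed _ (hS (by simp)) _ hp k

end

/-- the powers of `h_(-2)` -/
theorem pow_mem (r : ℕ) : (monomial (Finsupp.single 1 r) 1 : PP) ∈ JJ := by
  have h := eJ_mem (Finsupp.single 1 r)
  rw [eJ_apply] at h
  have : gS (Finsupp.single 1 r) = 1 := by
    unfold gS
    rw [Finsupp.prod_single_index (by simp)]
    have : gg 1 = 1 := by decide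
    rw [this, one_pow]
  rw [this] at h
  simpa using h

theorem frm_pow (r : ℕ) : frm (monomial (Finsupp.single 1 r) 1)
    (monomial (Finsupp.single 1 r) 1) = (r.factorial : ℚ) * (-(1 / 3)) ^ r := by
  rw [frm_mono, coeff_monomial, if_pos rfl, mul_one]
  unfold wF
  rw [Finsupp.prod_single_index (by simp)]
  norm_num

theorem unbounded (m : ℕ) (hm : 0 < m) :
    ∃ a ∈ JJ, ∃ b ∈ JJ, ∀ z : ℤ, (m : ℚ) * frm a b ≠ z := by
  refine ⟨_, pow_mem (2 * m), _, pow_mem (2 * m), fun z hz => ?_⟩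
  rw [frm_pow] at hz
  have h1 : (m : ℚ) * ((2 * m).factorial : ℚ) = z * 3 ^ (2 * m) := by
    rw [← hz]
    have : (-(1 / 3 : ℚ)) ^ (2 * m) * 3 ^ (2 * m) = 1 := by
      rw [← mul_pow, pow_mul]
      norm_num
    linear_combination (-(m : ℚ) * ((2 * m).factorial : ℚ)) * this
  have h2 : ((m * (2 * m).factorial : ℕ) : ℤ) = z * 3 ^ (2 * m) := by
    have : (((m * (2 * m).factorial : ℕ) : ℤ) : ℚ) = ((z * 3 ^ (2 * m) : ℤ) : ℚ) := by
      push_cast
      rw [h1]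
    exact_mod_cast this
  have h3 : 3 ^ (2 * m) ∣ m * (2 * m).factorial := by
    have : ((3 ^ (2 * m) : ℕ) : ℤ) ∣ ((m * (2 * m).factorial : ℕ) : ℤ) := by
      rw [h2]
      push_cast
      exact Dvd.intro_left _ rfl
    exact_mod_cast this
  haveI : Fact (Nat.Prime 3) := ⟨Nat.prime_three⟩
  have h4 : 2 * m ≤ padicValNat 3 (m * (2 * m).factorial) :=
    (padicValNat_dvd_iff_le (mul_ne_zero hm.ne' (Nat.factorial_ne_zero _))).1 h3
  rw [padicValNat.mul hm.ne' (Nat.factorial_ne_zero _)] at h4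
  have h5 : (3 - 1) * padicValNat 3 (2 * m).factorial =
      2 * m - ((Nat.digits 3 (2 * m)).sum) := sub_one_mul_padicValNat_factorial (2 * m)
  have h6 : padicValNat 3 m < m := by
    have : 3 ^ padicValNat 3 m ≤ m := Nat.le_of_dvd hm pow_padicValNat_dvd
    have h7 : padicValNat 3 m < 3 ^ padicValNat 3 m := Nat.lt_pow_self (by norm_num)
    omega
  omega

/-- The main result. -/
theorem final : ∃ (V : Type) (_ : AddCommGroup V) (_ : Module ℚ V) (A : VOA V)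
    (B : V →ₗ[ℚ] V →ₗ[ℚ] ℚ) (J : AddSubgroup V),
    ((∀ n : ℤ, n < 0 → A.wt n = ⊥) ∧ A.wt 0 = Submodule.span ℚ {A.one}) ∧
    ((∀ p q, B p q = B q p) ∧ (∀ p, (∀ q, B p q = 0) → p = 0) ∧ A.IsInvariant B ∧
      B A.one A.one = 1) ∧
    A.IsIntegralForm J ∧ A.FinGen J ∧ A.one ∈ J ∧
    ∀ m : ℕ, 0 < m → ∃ a ∈ J, ∃ b ∈ J, ∀ z : ℤ, (m : ℚ) * B a b ≠ z := by
  obtain ⟨A, hA, ho⟩ := exists_voa
  refine ⟨PP, inferInstance, inferInstance, A, frm, JJ, ⟨wt_neg hA ho, wt_zero hA ho⟩,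
    ⟨frm_symm, frm_nondeg, invariant hA ho, ?_⟩, JJ_form hA ho, JJ_fg hA ho, ?_, unbounded⟩
  · rw [hA.one]
    exact frm_one
  · rw [hA.one]
    exact one_eq ▸ eJ_mem 0

end Pool.Agent.Q19.VOQ
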