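import Pool.Agent.Q19.VOQ.Cfv

/-!
The weight decomposition and the Heisenberg vertex operator algebra.
-/

set_option autoImplicit false

namespace Pool.Agent.Q19.VOQ

open MvPolynomial

section gen

variable {I V : Type} [AddCommGroup V] [Module ℚ V] (b : Module.Basis I ℚ V)
  (T : Module.End ℚ V) (w : I → ℤ) (hT : ∀ i, T (b i) = (w i : ℚ) • b i)

include hT

theorem repr_eq (v : V) (i : I) : b.repr (T v) i = (w i : ℚ) * b.repr v i := by
  have h : (b.coord i).comp T = (w i : ℚ) • b.coord i := by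
    apply b.ext
    intro j
    rw [LinearMap.comp_apply, hT, LinearMap.smul_apply, map_smul, b.coord_apply]
    by_cases hij : j = i
    · rw [hij]
    · rw [b.repr_self, Finsupp.single_eq_of_ne (Ne.symm hij)]
      simp
  have := LinearMap.congr_fun h v
  simpa using this

theorem ker_eq (n : ℤ) : LinearMap.ker (T - (n : ℚ) • (LinearMap.id : V →ₗ[ℚ] V)) =
    Submodule.span ℚ (b '' {i | w i = n}) := by
  apply le_antisymm
  · intro v hv
    rw [b.mem_span_image]
    intro i hi
    have h1 : T v = (n : ℚ) • v := by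
      have : T v - (n : ℚ) • v = 0 := by simpa using hv
      exact sub_eq_zero.1 this
    have h2 := repr_eq b T w hT v i
    rw [h1, map_smul, Finsupp.smul_apply, smul_eq_mul] at h2
    have h3 : b.repr v i ≠ 0 := by
      simpa using hi
    have h4 := mul_right_cancel₀ h3 h2
    show w i = n
    exact_mod_cast h4.symm
  · rw [Submodule.span_le]
    rintro _ ⟨i, hi, rfl⟩
    have hi' : w i = n := hi
    show b i ∈ LinearMap.ker (T - (n : ℚ) • (LinearMap.id : V →ₗ[ℚ] V))
    rw [LinearMap.mem_ker, LinearMap.sub_apply, hT, hi']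
    simp

theorem internal : DirectSum.IsInternal
    (fun n : ℤ => LinearMap.ker (T - (n : ℚ) • (LinearMap.id : V →ₗ[ℚ] V))) := by
  rw [DirectSum.isInternal_submodule_iff_iSupIndep_and_iSup_eq_top]
  constructor
  · have h1 := (Module.End.eigenspaces_iSupIndep T).comp (f := fun n : ℤ => (n : ℚ))
      Int.cast_injective
    have h2 : (T.eigenspace ∘ fun n : ℤ => (n : ℚ)) =
        fun n : ℤ => LinearMap.ker (T - (n : ℚ) • (LinearMap.id : V →ₗ[ℚ] V)) := by
      funext n
      rw [Function.comp_apply, Module.End.eigenspace_def]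
      rfl
    rw [h2] at h1
    exact h1
  · rw [eq_top_iff, ← b.span_eq, Submodule.span_le]
    rintro _ ⟨i, rfl⟩
    have h1 : b i ∈ LinearMap.ker (T - (w i : ℚ) • (LinearMap.id : V →ₗ[ℚ] V)) := by
      rw [LinearMap.mem_ker, LinearMap.sub_apply, hT]
      simp
    exact Submodule.mem_iSup_of_mem (w i) h1

end gen

/-- the weight of a monomial -/
def wS (s : ℕ →₀ ℕ) : ℕ := s.sum fun i k => k * (i + 1)

theorem wS_ge (s : ℕ →₀ ℕ) (i : ℕ) : s i * (i + 1) ≤ wS s := by
  unfold wS Finsupp.sum
  by_cases hi : i ∈ s.support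
  · exact Finset.single_le_sum (f := fun i => s i * (i + 1)) (fun _ _ => Nat.zero_le _) hi
  · rw [Finsupp.notMem_support_iff.1 hi, zero_mul]
    exact Nat.zero_le _

theorem NN_monomial (s : ℕ →₀ ℕ) : NN (monomial s 1) = ((wS s : ℕ) : ℚ) • monomial s 1 := by
  unfold NN
  rw [mkDerivation_monomial, one_smul]
  unfold wS Finsupp.sum
  rw [Nat.cast_sum, Finset.sum_smul]
  refine Finset.sum_congr rfl fun i hi => ?_
  have h0 : s i ≠ 0 := Finsupp.mem_support_iff.1 hi
  have h1 : s - Finsupp.single i 1 + Finsupp.single i 1 = s := by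
    ext j
    by_cases hj : j = i
    · subst hj
      simp
      omega
    · simp [Finsupp.single_eq_of_ne hj]
  show monomial (s - Finsupp.single i 1) ((s i : ℕ) : ℚ) • (C ((i : ℚ) + 1) * X i) =
    (((s i * (i + 1) : ℕ)) : ℚ) • (monomial s (1 : ℚ))
  rw [smul_eq_mul, X, C_mul_monomial, monomial_mul, h1, smul_monomial]
  congr 1
  push_cast
  simp

/-- the monomial basis -/
noncomputable def bas : Module.Basis (ℕ →₀ ℕ) ℚ PP := basisMonomials ℕ ℚ

theorem bas_apply (s : ℕ →₀ ℕ) : bas s = monomial s 1 := by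
  unfold bas
  rw [coe_basisMonomials]

theorem NN_bas (i : ℕ →₀ ℕ) :
    NN.toLinearMap (bas i) = (((wS i : ℕ) : ℤ) : ℚ) • bas i := by
  rw [bas_apply]
  show NN (monomial i 1) = _
  rw [NN_monomial]
  push_cast
  rfl

theorem finS (N : ℕ) : {s : ℕ →₀ ℕ | wS s ≤ N}.Finite := by
  refine Set.Finite.subset
    (Finset.finite_toSet (Finset.finsupp (Finset.range N) (fun _ => Finset.range (N + 1)))) ?_
  intro s hs
  have hs' : wS s ≤ N := hs
  rw [Finset.mem_coe, Finset.mem_finsupp_iff]
  constructor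
  · intro i hi
    have h0 : s i ≠ 0 := Finsupp.mem_support_iff.1 hi
    have h1 := wS_ge s i
    rw [Finset.mem_range]
    have h2 : 1 * (i + 1) ≤ s i * (i + 1) := Nat.mul_le_mul_right _ (Nat.pos_of_ne_zero h0)
    omega
  · intro i _
    have h1 := wS_ge s i
    rw [Finset.mem_range]
    have h2 : s i * 1 ≤ s i * (i + 1) := Nat.mul_le_mul_left _ (by omega)
    omega

theorem exists_voa : ∃ A : VOA PP, Good A.toVertexAlgebra ∧ A.omega = om := by
  obtain ⟨A, h1, h2, h3⟩ := exists_va
  have hA : Good A := ⟨h1, h2, h3⟩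
  refine ⟨{ A with
    omega := om
    c := 1
    virasoro := vir hA
    deriv := ?_
    internal := ?_
    finite := ?_
    bounded := ?_ }, ?_, rfl⟩
  · intro a n
    rw [om0 hA, hA.T]
  · rw [om1 hA]
    exact internal bas _ _ NN_bas
  · intro n
    rw [om1 hA, ker_eq bas _ _ NN_bas n]
    refine FiniteDimensional.span_of_finite ℚ (Set.Finite.image _ ?_)
    refine (finS n.toNat).subset ?_
    intro s hs
    have hs' : ((wS s : ℕ) : ℤ) = n := hs
    show wS s ≤ n.toNat
    omega
  · refine ⟨0, fun n hn => ?_⟩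
    rw [om1 hA, ker_eq bas _ _ NN_bas n]
    have : {i | ((wS i : ℕ) : ℤ) = n} = ∅ := by
      ext i
      simp only [Set.mem_ofPred_eq, Set.mem_empty_iff_false, iff_false]
      omega
    rw [this, Set.image_empty, Submodule.span_empty]
  · exact ⟨h1, h2, h3⟩

end Pool.Agent.Q19.VOQ
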